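import Pool.Agent.Helper161SP.Conv

/-!
# Positions with small tails
-/

set_option autoImplicit false

open Finset

namespace Pool.Agent.Helper161SP

open Pool.Agent.H394R2.Ones Pool.Agent.H820R3.DG

open PowerSeries (coeff)

section
variable {b : ℕ} {ι : Type} [Fintype ι] [DecidableEq ι]

/-- the tail of the product of all numbers -/
noncomputable def TA (b : ℕ) (y0 : ℝ) (y : ι → ℝ) (m : ℕ) : ℝ :=
  tl b (Fy b y0 * FI b y univ) ((1 + y0) * ∏ i, (1 + y i)) m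

lemma TA_ge (hb : 2 ≤ b) {y0 : ℝ} (hy00 : 0 < y0) (hy01 : y0 < 1) (y : ι → ℝ)
    (hy0 : ∀ i, 0 < y i) (hy1 : ∀ i, y i < 1) {m j : ℕ} (hj : j ≤ m)
    (hs : 1 ≤ coeff j (FI b y univ)) : ep b y0 (m - j) ≤ TA b y0 y m := by
  unfold TA
  rw [tl_mul]
  have h1 : 0 ≤ (1 + y0) * tl b (FI b y univ) (∏ i, (1 + y i)) m :=
    mul_nonneg (by linarith) (tl_FI_nonneg hb y hy0 hy1 univ m)
  have h2 : ((coeff j (FI b y univ) : ℕ) : ℝ) * tl b (Fy b y0) (1 + y0) (m - j) ≤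
      ∑ p ∈ antidiagonal m, ((coeff p.1 (FI b y univ) : ℕ) : ℝ) * tl b (Fy b y0) (1 + y0) p.2 := by
    refine single_le_sum (f := fun p : ℕ × ℕ => ((coeff p.1 (FI b y univ) : ℕ) : ℝ) *
      tl b (Fy b y0) (1 + y0) p.2) (fun p _ => ?_) (a := (j, m - j)) ?_
    · rw [tl_Fy hb hy00 hy01]
      exact mul_nonneg (Nat.cast_nonneg _) (ep_nonneg hy00 _)
    · rw [Finset.HasAntidiagonal.mem_antidiagonal]
      simp only
      omega
  rw [tl_Fy hb hy00 hy01] at h2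
  have h3 : (1 : ℝ) ≤ ((coeff j (FI b y univ) : ℕ) : ℝ) := by exact_mod_cast hs
  have h4 := ep_nonneg (b := b) hy00 (m - j)
  nlinarith

lemma TA_nonneg (hb : 2 ≤ b) {y0 : ℝ} (hy00 : 0 < y0) (hy01 : y0 < 1) (y : ι → ℝ)
    (hy0 : ∀ i, 0 < y i) (hy1 : ∀ i, y i < 1) (m : ℕ) : 0 ≤ TA b y0 y m := by
  have h := TA_ge hb hy00 hy01 y hy0 hy1 (Nat.zero_le m) (by rw [coeff_zero_FI])
  exact (ep_nonneg hy00 _).trans h

lemma TA_le (hb : 2 ≤ b) {y0 : ℝ} (hy00 : 0 < y0) (hy01 : y0 < 1) (y : ι → ℝ)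
    (hy0 : ∀ i, 0 < y i) (hy1 : ∀ i, y i < 1) (n : ℕ) :
    TA b y0 y n ≤ 3 ^ (Fintype.card ι + 1) * ((KK b y0 n * ∏ i, KK b (y i) n : ℕ) : ℝ) := by
  unfold TA
  have h2 := tl_insert_le hb hy00 hy01 (FI b y univ) (∏ i, (1 + y i)) n
    (tl_FI_nonneg hb y hy0 hy1 univ n)
  have h6 := tl_FI_le hb y hy0 hy1 univ n
  have h3 : ((SF (FI b y univ) n : ℕ) : ℝ) ≤ ((∏ i, KK b (y i) n : ℕ) : ℝ) := by
    exact_mod_cast SF_FI y univ n
  have h4 : (1 : ℝ) ≤ (KK b y0 n : ℝ) := by exact_mod_cast KK_pos hy00 hy01 n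
  rw [card_univ] at h6
  push_cast at h3 h6 ⊢
  set Q : ℝ := (∏ i, (KK b (y i) n : ℝ)) with hQ
  have hQ0 : 0 ≤ Q := prod_nonneg fun _ _ => Nat.cast_nonneg _
  have h5 : (1 : ℝ) ≤ 3 ^ Fintype.card ι := one_le_pow₀ (by norm_num)
  rw [pow_succ]
  calc tl b (Fy b y0 * FI b y univ) ((1 + y0) * ∏ i, (1 + y i)) n ≤
      Q + 2 * (3 ^ Fintype.card ι * Q) := by linarith
    _ ≤ 3 ^ Fintype.card ι * Q + 2 * (3 ^ Fintype.card ι * Q) := by nlinarith
    _ = 3 ^ Fintype.card ι * 3 * (1 * Q) := by ring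
    _ ≤ 3 ^ Fintype.card ι * 3 * (KK b y0 n * Q) := by gcongr

/-- the integer of the relation -/
lemma rel_int {y0 : ℝ} (y : ι → ℝ) (q : ℕ) (p : Finset ι → ℤ)
    (hrel : (q : ℝ) * ((1 + y0) * ∏ i, (1 + y i)) = ∑ I : Finset ι, (p I : ℝ) * ∏ i ∈ I, (1 + y i))
    (m : ℕ) : ∃ Z : ℤ, (Z : ℝ) = q * TA b y0 y m -
      ∑ I : Finset ι, (p I : ℝ) * tl b (FI b y I) (∏ i ∈ I, (1 + y i)) m := by
  refine ⟨∑ I : Finset ι, p I * (coeff m (FI b y I * EE b) : ℕ) -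
    (q : ℤ) * (coeff m (Fy b y0 * FI b y univ * EE b) : ℕ), ?_⟩
  unfold TA tl
  push_cast
  simp only [mul_sub, sum_sub_distrib]
  have h1 : ∑ I : Finset ι, (p I : ℝ) * ((∏ i ∈ I, (1 + y i)) * (b : ℝ) ^ m) =
      (q : ℝ) * ((1 + y0) * (∏ i, (1 + y i)) * (b : ℝ) ^ m) := by
    have h2 : ∀ I : Finset ι, (p I : ℝ) * ((∏ i ∈ I, (1 + y i)) * (b : ℝ) ^ m) =
        (p I : ℝ) * (∏ i ∈ I, (1 + y i)) * (b : ℝ) ^ m := fun I => by ring
    simp only [h2]
    rw [← sum_mul, ← hrel]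
    ring
  rw [h1]
  ring

/-- the bound for the tails of the partial products -/
noncomputable def VV (b : ℕ) (p : Finset ι → ℤ) (X : ℕ) : ℝ :=
  (∑ I : Finset ι, |(p I : ℝ)|) * (3 ^ Fintype.card ι * ((b : ℝ) * X) ^ Fintype.card ι)

lemma sum_tails_le (hb : 2 ≤ b) (y : ι → ℝ) (hy0 : ∀ i, 0 < y i) (hy1 : ∀ i, y i < 1)
    (p : Finset ι → ℤ) (m j' X : ℕ) (hm : m < j') (hj' : j' ≤ X)
    (hz : ∀ k, m < k → k < j' → coeff k (FI b y univ) = 0) :
    (b : ℝ) ^ (j' - 1 - m) *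
      |∑ I : Finset ι, (p I : ℝ) * tl b (FI b y I) (∏ i ∈ I, (1 + y i)) m| ≤ VV b p X := by
  have hb1 : (1 : ℝ) ≤ b := by exact_mod_cast (by omega : 1 ≤ b)
  have hpow : (0 : ℝ) ≤ (b : ℝ) ^ (j' - 1 - m) := by positivity
  calc (b : ℝ) ^ (j' - 1 - m) *
      |∑ I : Finset ι, (p I : ℝ) * tl b (FI b y I) (∏ i ∈ I, (1 + y i)) m| ≤
      (b : ℝ) ^ (j' - 1 - m) *
      ∑ I : Finset ι, |(p I : ℝ) * tl b (FI b y I) (∏ i ∈ I, (1 + y i)) m| :=
        mul_le_mul_of_nonneg_left (abs_sum_le_sum_abs _ _) hpow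
    _ = ∑ I : Finset ι, |(p I : ℝ)| * ((b : ℝ) ^ (j' - 1 - m) *
          tl b (FI b y I) (∏ i ∈ I, (1 + y i)) m) := by
        rw [mul_sum]
        refine sum_congr rfl fun I _ => ?_
        rw [abs_mul, abs_of_nonneg (tl_FI_nonneg hb y hy0 hy1 I m)]
        ring
    _ ≤ ∑ I : Finset ι, |(p I : ℝ)| *
          (3 ^ Fintype.card ι * ((b : ℝ) * X) ^ Fintype.card ι) := by
        refine sum_le_sum fun I _ => mul_le_mul_of_nonneg_left ?_ (abs_nonneg _)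
        have h1 := tl_zeros (b := b) (FI b y I) (∏ i ∈ I, (1 + y i)) m (j' - 1 - m)
          (fun k hk1 hk2 => Nat.le_zero.1 ((coeff_FI_mono y (subset_univ I) k).trans
            (le_of_eq (hz k hk1 (by omega)))))
        have e1 : m + (j' - 1 - m) = j' - 1 := by omega
        rw [e1] at h1
        rw [← h1]
        refine (tl_FI_le hb y hy0 hy1 I (j' - 1)).trans ?_
        have hX : (1 : ℝ) ≤ (b : ℝ) * X := by
          have : (1 : ℝ) ≤ X := by exact_mod_cast (by omega : 1 ≤ X)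
          nlinarith
        have h2 : ((∏ i ∈ I, KK b (y i) (j' - 1) : ℕ) : ℝ) ≤ ((b : ℝ) * X) ^ Fintype.card ι := by
          push_cast
          calc ∏ i ∈ I, (KK b (y i) (j' - 1) : ℝ) ≤ ∏ i ∈ I, ((b : ℝ) * X) := by
                refine prod_le_prod (fun _ _ => Nat.cast_nonneg _) fun i _ => ?_
                have h6 := KK_le (y := y i) hb (j' - 1)
                have h7 : KK b (y i) (j' - 1) ≤ b * X :=
                  h6.trans (Nat.mul_le_mul_left b (by omega))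
                exact_mod_cast h7
            _ = ((b : ℝ) * X) ^ I.card := by rw [prod_const]
            _ ≤ ((b : ℝ) * X) ^ Fintype.card ι := pow_le_pow_right₀ hX (card_le_univ I)
        have h3 : (3 : ℝ) ^ I.card ≤ 3 ^ Fintype.card ι :=
          pow_le_pow_right₀ (by norm_num) (card_le_univ I)
        exact mul_le_mul h3 h2 (Nat.cast_nonneg _) (by positivity)
    _ = VV b p X := by rw [← sum_mul, VV]

theorem bad_pos' (hb : 2 ≤ b) {y0 : ℝ} (hy00 : 0 < y0) (hy01 : y0 < 1) (halg : IsAlgebraic ℚ y0)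
    (hirr : Irrational y0) (y : ι → ℝ) (hy0 : ∀ i, 0 < y i) (hy1 : ∀ i, y i < 1)
    (q : ℕ) (hq : 1 ≤ q) (p : Finset ι → ℤ)
    (hrel : (q : ℝ) * ((1 + y0) * ∏ i, (1 + y i)) = ∑ I : Finset ι, (p I : ℝ) * ∏ i ∈ I, (1 + y i))
    (δ : ℝ) (hδ : 0 < δ) (hδ1 : δ ≤ 1) :
    ∃ L0 : ℕ, ∀ a' X : ℕ, 2 * VV b p X < (b : ℝ) ^ a' →
      ∀ m j j' : ℕ, j ≤ m → m < j' → j' ≤ X → 1 ≤ coeff j (FI b y univ) →
      (∀ k, j < k → k < j' → coeff k (FI b y univ) = 0) →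
      TA b y0 y m < 1 / (2 * q) →
      m < j + L0 ∨ (j' : ℝ) ≤ m + (a' + 2) + δ * ((j' : ℝ) - j) := by
  obtain ⟨L0, hgap⟩ := gap hb hy00 halg hirr δ hδ hδ1
  have hb1 : (1 : ℝ) < b := by exact_mod_cast (by omega : 1 < b)
  have hb0 : (0 : ℝ) < b := by linarith
  have hqR : (1 : ℝ) ≤ q := by exact_mod_cast hq
  refine ⟨L0, ?_⟩
  intro a' X hX m j j' hjm hmj' hj'X hj hz hbad
  rcases Nat.lt_or_ge (m - j) L0 with hL | hL
  · left; omega
  right
  have hmj'R : (m : ℝ) ≤ j' := by exact_mod_cast hmj'.le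
  have hjmR : (j : ℝ) ≤ m := by exact_mod_cast hjm
  set U := ∑ I : Finset ι, (p I : ℝ) * tl b (FI b y I) (∏ i ∈ I, (1 + y i)) m with hU
  have hUle := sum_tails_le hb y hy0 hy1 p m j' X hmj' hj'X (fun k h1 h2 => hz k (by omega) h2)
  rw [← hU] at hUle
  rcases le_or_gt (1 / 2) |U| with hU2 | hU2
  · have h1 : (b : ℝ) ^ (j' - 1 - m) < (b : ℝ) ^ a' := by
      have h2 : (b : ℝ) ^ (j' - 1 - m) * (1 / 2) ≤ (b : ℝ) ^ (j' - 1 - m) * |U| := by gcongr
      linarith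
    have h8 : j' - 1 - m < a' := (pow_lt_pow_iff_right₀ hb1).mp h1
    have h9 : j' ≤ m + (a' + 2) := by omega
    have h9' : (j' : ℝ) ≤ m + (a' + 2) := by exact_mod_cast h9
    have h10 : 0 ≤ δ * ((j' : ℝ) - j) := mul_nonneg hδ.le (by linarith)
    linarith
  · -- the integer is zero
    obtain ⟨Z, hZ⟩ := rel_int (b := b) y q p hrel m
    rw [← hU] at hZ
    have hT0 := TA_nonneg hb hy00 hy01 y hy0 hy1 m
    have hqT : q * TA b y0 y m < 1 / 2 := by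
      have h1 : q * TA b y0 y m < q * (1 / (2 * q)) := by
        apply mul_lt_mul_of_pos_left hbad; linarith
      have h2 : (q : ℝ) * (1 / (2 * q)) = 1 / 2 := by field_simp
      linarith
    have hqT0 : 0 ≤ (q : ℝ) * TA b y0 y m := mul_nonneg (by linarith) hT0
    have hZ0 : Z = 0 := by
      have h1 : |(Z : ℝ)| < 1 := by
        rw [hZ, abs_lt]
        have h2 := abs_lt.1 hU2
        constructor <;> linarith [h2.1, h2.2]
      have h2 : |Z| < 1 := by exact_mod_cast h1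
      exact Int.abs_lt_one_iff.mp h2
    rw [hZ0, Int.cast_zero] at hZ
    have hTU : TA b y0 y m ≤ |U| := by
      have h1 : (q : ℝ) * TA b y0 y m = U := by linarith
      calc TA b y0 y m = 1 * TA b y0 y m := (one_mul _).symm
        _ ≤ q * TA b y0 y m := mul_le_mul_of_nonneg_right hqR hT0
        _ = U := h1
        _ ≤ |U| := le_abs_self _
    obtain ⟨k, hk1, hk2, hk3⟩ := hgap (m - j) hL
    obtain ⟨h, rfl⟩ : ∃ h, k = m - j + h + 1 := ⟨k - (m - j) - 1, by omega⟩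
    have h1 := ep_large hb hy00 (m - j) h hk3
    have h2 := TA_ge hb hy00 hy01 y hy0 hy1 hjm hj
    have h7 : (b : ℝ) ^ (j' - 1 - m) < (b : ℝ) ^ (a' + (h + 1)) := by
      have e2 : 1 ≤ (b : ℝ) ^ (h + 1) * |U| := by
        have h8 := mul_le_mul_of_nonneg_left (h2.trans hTU)
          (by positivity : (0 : ℝ) ≤ (b : ℝ) ^ (h + 1))
        linarith
      have hV0 : 0 ≤ VV b p X := le_trans (by positivity) hUle
      calc (b : ℝ) ^ (j' - 1 - m) = (b : ℝ) ^ (j' - 1 - m) * 1 := by ring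
        _ ≤ (b : ℝ) ^ (j' - 1 - m) * ((b : ℝ) ^ (h + 1) * |U|) := by gcongr
        _ = (b : ℝ) ^ (h + 1) * ((b : ℝ) ^ (j' - 1 - m) * |U|) := by ring
        _ ≤ (b : ℝ) ^ (h + 1) * VV b p X := by gcongr
        _ < (b : ℝ) ^ (h + 1) * (b : ℝ) ^ a' := by
            apply mul_lt_mul_of_pos_left _ (by positivity)
            linarith
        _ = _ := by rw [pow_add (b : ℝ) a']; ring
    have h8 : j' - 1 - m < a' + (h + 1) := (pow_lt_pow_iff_right₀ hb1).mp h7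
    have h9 : j' ≤ m + a' + (h + 1) := by omega
    have h9' : (j' : ℝ) ≤ m + a' + (h + 1) := by exact_mod_cast h9
    push_cast at hk2
    have hcast : ((m - j : ℕ) : ℝ) = m - j := by rw [Nat.cast_sub hjm]
    rw [hcast] at hk2
    have h10 : δ * ((m : ℝ) - j) ≤ δ * ((j' : ℝ) - j) :=
      mul_le_mul_of_nonneg_left (by linarith) hδ.le
    linarith

open Classical in
/-- the number of positions with small tail -/
theorem bad_card' (hb : 2 ≤ b) {y0 : ℝ} (hy00 : 0 < y0) (hy01 : y0 < 1) (halg : IsAlgebraic ℚ y0)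
    (hirr : Irrational y0) (y : ι → ℝ) (hy0 : ∀ i, 0 < y i) (hy1 : ∀ i, y i < 1)
    (q : ℕ) (hq : 1 ≤ q) (p : Finset ι → ℤ)
    (hrel : (q : ℝ) * ((1 + y0) * ∏ i, (1 + y i)) = ∑ I : Finset ι, (p I : ℝ) * ∏ i ∈ I, (1 + y i))
    (i1 : ι) (halg1 : IsAlgebraic ℚ (y i1)) (hirr1 : Irrational (y i1)) :
    ∃ C : ℝ, 0 ≤ C ∧ ∀ n : ℕ,
      (((range n).filter (fun m => TA b y0 y m < 1 / (2 * q))).card : ℝ) ≤
        C * (1 + Real.log ((n : ℝ) + 1)) *
          ((((range n).filter (fun m => 1 ≤ coeff m (FI b y univ))).card : ℝ) + 1) +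
        (n : ℝ) / 2 := by
  have hb1 : (1 : ℝ) < b := by exact_mod_cast (by omega : 1 < b)
  have hb2 : (2 : ℝ) ≤ b := by exact_mod_cast hb
  have hb0 : (0 : ℝ) < b := by linarith
  have hlogb : 0 < Real.log b := Real.log_pos hb1
  obtain ⟨L0, hpos⟩ := bad_pos' hb hy00 hy01 halg hirr y hy0 hy1 q hq p hrel (1 / 4) (by norm_num)
    (by norm_num)
  obtain ⟨L1, hgap⟩ := gap hb (hy0 i1) halg1 hirr1 (1 / 2) (by norm_num) (by norm_num)
  set e : ℕ := Fintype.card ι with he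
  set cp : ℝ := ∑ I : Finset ι, |(p I : ℝ)| with hcp
  have hcp0 : 0 ≤ cp := sum_nonneg fun _ _ => abs_nonneg _
  set A0 : ℝ := Real.log ((2 * cp + 1) * (3 ^ e * (2 * b) ^ e)) with hA0
  have hA1 : 1 ≤ (2 * cp + 1) * (3 ^ e * (2 * (b : ℝ)) ^ e) := by
    have h1 : (1 : ℝ) ≤ 3 ^ e := one_le_pow₀ (by norm_num)
    have h2 : (1 : ℝ) ≤ (2 * (b : ℝ)) ^ e := one_le_pow₀ (by linarith)
    have h3 : (1 : ℝ) ≤ 3 ^ e * (2 * (b : ℝ)) ^ e := one_le_mul_of_one_le_of_one_le h1 h2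
    exact one_le_mul_of_one_le_of_one_le (by linarith) h3
  have hA00 : 0 ≤ A0 := Real.log_nonneg hA1
  set C5 : ℝ := (A0 + e) / Real.log b + 3 + L0 with hC5
  have hC50 : 0 ≤ C5 := by positivity
  refine ⟨2 * C5 + L1 + 4, by positivity, fun n => ?_⟩
  have hℓ : 0 ≤ Real.log ((n : ℝ) + 1) := Real.log_nonneg (by
    have : (0 : ℝ) ≤ n := Nat.cast_nonneg _
    linarith)
  set ℓ := Real.log ((n : ℝ) + 1) with hℓdef
  have hn0 : (0 : ℝ) ≤ n := Nat.cast_nonneg _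
  have hL1 : (0 : ℝ) ≤ L1 := Nat.cast_nonneg _
  set I : ℝ := (((range n).filter (fun m => 1 ≤ coeff m (FI b y univ))).card : ℝ) with hI
  have hI0 : 0 ≤ I := Nat.cast_nonneg _
  rcases Nat.lt_or_ge n L1 with hnL | hnL
  · have h1 : ((range n).filter (fun m => TA b y0 y m < 1 / (2 * q))).card ≤ n := by
      simpa using card_filter_le (range n) (fun m => TA b y0 y m < 1 / (2 * q))
    have h2 : (((range n).filter (fun m => TA b y0 y m < 1 / (2 * q))).card : ℝ) ≤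
        L1 := by exact_mod_cast (h1.trans hnL.le)
    have h3 : (L1 : ℝ) * 1 * 1 ≤ (2 * C5 + L1 + 4) * (1 + ℓ) * (I + 1) := by
      gcongr
      · linarith
      · linarith
      · linarith
    linarith
  -- the parameters
  set X : ℕ := 2 * n + 2 with hX
  set V : ℝ := 2 * VV b p X with hV
  have hVe : V = 2 * cp * (3 ^ e * ((b : ℝ) * X) ^ e) := by rw [hV, VV]; ring
  have hV0 : 0 ≤ V := by rw [hVe]; positivity
  have hX1 : (X : ℝ) = 2 * (n + 1) := by rw [hX]; push_cast; ring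
  have hV1 : V + 1 ≤ (2 * cp + 1) * (3 ^ e * (2 * (b : ℝ)) ^ e) * ((n : ℝ) + 1) ^ e := by
    have h1 : (2 * cp + 1) * (3 ^ e * (2 * (b : ℝ)) ^ e) * ((n : ℝ) + 1) ^ e =
        V + 3 ^ e * ((b : ℝ) * X) ^ e := by
      rw [hVe, hX1]
      have : ((b : ℝ) * (2 * (n + 1))) ^ e = (2 * (b : ℝ)) ^ e * ((n : ℝ) + 1) ^ e := by
        rw [← mul_pow]; congr 1; ring
      rw [this]; ring
    rw [h1]
    have h2 : (1 : ℝ) ≤ 3 ^ e := one_le_pow₀ (by norm_num)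
    have h3 : (1 : ℝ) ≤ ((b : ℝ) * X) ^ e := one_le_pow₀ (by rw [hX1]; nlinarith)
    have h4 : (1 : ℝ) ≤ 3 ^ e * ((b : ℝ) * X) ^ e := one_le_mul_of_one_le_of_one_le h2 h3
    linarith
  have hlogV : Real.log (V + 1) ≤ A0 + e * ℓ := by
    calc Real.log (V + 1) ≤
        Real.log ((2 * cp + 1) * (3 ^ e * (2 * (b : ℝ)) ^ e) * ((n : ℝ) + 1) ^ e) :=
          Real.log_le_log (by linarith) hV1
      _ = A0 + e * ℓ := by
        rw [Real.log_mul (by linarith) (by positivity), Real.log_pow]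
  set a' : ℕ := ⌊Real.log (V + 1) / Real.log b⌋₊ + 1 with ha'
  have hlV0 : 0 ≤ Real.log (V + 1) := Real.log_nonneg (by linarith)
  have ha'1 : V < (b : ℝ) ^ a' := by
    have h1 : Real.log (V + 1) / Real.log b < a' := by
      rw [ha']; push_cast; exact Nat.lt_floor_add_one _
    rw [div_lt_iff₀ hlogb] at h1
    have h2 : Real.log (V + 1) < Real.log ((b : ℝ) ^ a') := by rw [Real.log_pow]; exact h1
    have h3 := (Real.log_lt_log_iff (by linarith) (by positivity)).mp h2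
    linarith
  have ha'2 : (a' : ℝ) + 2 + L0 ≤ C5 * (1 + ℓ) := by
    have h1 : (a' : ℝ) ≤ Real.log (V + 1) / Real.log b + 1 := by
      rw [ha']; push_cast
      have := Nat.floor_le (div_nonneg hlV0 hlogb.le)
      linarith
    have h2 : Real.log (V + 1) / Real.log b ≤ (A0 + e * ℓ) / Real.log b :=
      div_le_div_of_nonneg_right hlogV hlogb.le
    have h3 : (A0 + e * ℓ) / Real.log b ≤ (A0 + e) / Real.log b * (1 + ℓ) := by
      rw [div_mul_eq_mul_div]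
      apply div_le_div_of_nonneg_right _ hlogb.le
      have : (0 : ℝ) ≤ e := Nat.cast_nonneg _
      nlinarith
    have h4 : (0 : ℝ) ≤ L0 := Nat.cast_nonneg _
    have h5 : C5 * (1 + ℓ) = (A0 + e) / Real.log b * (1 + ℓ) + (3 + L0) * (1 + ℓ) := by
      rw [hC5]; ring
    have h6 : 3 + (L0 : ℝ) ≤ (3 + L0) * (1 + ℓ) := by nlinarith
    linarith
  -- the next element
  obtain ⟨k, hk1, hk2, hk3⟩ := hgap n hnL
  have hkE : 1 ≤ coeff k (FI b y univ) := by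
    refine le_trans ?_ (coeff_FI_mono y (subset_univ {i1}) k)
    unfold FI
    rw [prod_singleton, Fy, PowerSeries.coeff_mk]
    obtain ⟨k', rfl⟩ : ∃ k', k = k' + 1 := ⟨k - 1, by omega⟩
    rw [xx_succ]
    exact hk3
  have hex : ∃ k, n ≤ k ∧ 1 ≤ coeff k (FI b y univ) := ⟨k, hk1.le, hkE⟩
  set j' := Nat.find hex with hj'
  have hj'1 := Nat.find_spec hex
  rw [← hj'] at hj'1
  have hj'k : j' ≤ k := Nat.find_min' hex ⟨hk1.le, hkE⟩
  have hj'R : (j' : ℝ) ≤ n + 1 + 1 / 2 * n := by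
    have : (j' : ℝ) ≤ k := by exact_mod_cast hj'k
    linarith
  have hj'X : j' ≤ X := by
    have : (j' : ℝ) ≤ X := by rw [hX1]; linarith
    exact_mod_cast this
  have h1 := count_blocks2 (fun k => 1 ≤ coeff k (FI b y univ))
    (fun m => TA b y0 y m < 1 / (2 * q)) 1 (a' + 2 + L0) X (1 / 4)
    (by norm_num) ⟨0, by norm_num, by rw [coeff_zero_FI]⟩ (by
      intro m j j'' _ h3 h4 h5 h6 _ h8 h9
      rcases hpos a' X ha'1 m j j'' h3 h4 h5 h6 (fun k hk1 hk2 => by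
        have := h8 k hk1 hk2
        omega) h9 with h10 | h10
      · left; omega
      · right
        push_cast
        have : (0 : ℝ) ≤ L0 := Nat.cast_nonneg _
        linarith) n j' hj'1.1 hj'X hj'1.2
    (fun k' hk'1 hk'2 hk'3 => Nat.find_min hex hk'2 ⟨hk'1, hk'3⟩)
  have h2 : ((range n).filter (fun m => TA b y0 y m < 1 / (2 * q))).card ≤
      ((range n).filter (fun m => 1 ≤ m ∧ TA b y0 y m < 1 / (2 * q))).card + 1 := by
    have h3 : (range n).filter (fun m => TA b y0 y m < 1 / (2 * q)) ⊆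
        (range n).filter (fun m => 1 ≤ m ∧ TA b y0 y m < 1 / (2 * q)) ∪ range 1 := by
      intro m hm
      obtain ⟨hm1, hm2⟩ := mem_filter.mp hm
      rw [mem_union]
      rcases Nat.lt_or_ge m 1 with h4 | h4
      · exact Or.inr (mem_range.mpr h4)
      · exact Or.inl (mem_filter.mpr ⟨hm1, h4, hm2⟩)
    have h4 := (card_le_card h3).trans (card_union_le _ _)
    rwa [card_range] at h4
  have h2' : (((range n).filter (fun m => TA b y0 y m < 1 / (2 * q))).card : ℝ) ≤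
      ((range n).filter (fun m => 1 ≤ m ∧ TA b y0 y m < 1 / (2 * q))).card + 1 := by
    exact_mod_cast h2
  have h1' : (((range n).filter (fun m => 1 ≤ m ∧ TA b y0 y m < 1 / (2 * q))).card : ℝ) ≤
      2 * ((a' : ℝ) + 2 + L0) * I + 2 * ((a' : ℝ) + 2 + L0) + 1 / 4 * j' := by
    have h3 := h1
    push_cast at h3
    exact h3
  have h4 : (1 : ℝ) / 4 * j' ≤ (n : ℝ) / 2 + 1 := by linarith
  have ha0 : (0 : ℝ) ≤ a' + 2 + L0 := by positivity
  have h5 : 2 * ((a' : ℝ) + 2 + L0) * (I + 1) ≤ 2 * (C5 * (1 + ℓ)) * (I + 1) := by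
    apply mul_le_mul_of_nonneg_right _ (by positivity)
    linarith
  have h7 : (L1 + 4) * 1 * 1 ≤ (L1 + 4) * (1 + ℓ) * (I + 1) := by
    gcongr
    · linarith
    · linarith
  have h8 : (2 * C5 + L1 + 4) * (1 + ℓ) * (I + 1) =
      2 * (C5 * (1 + ℓ)) * (I + 1) + (L1 + 4) * (1 + ℓ) * (I + 1) := by ring
  rw [h8]
  linarith

end

end Pool.Agent.Helper161SP
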