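import Pool.Agent.R474.AG.Fin

/-!
# Products of expansions: coefficients and tails
-/

set_option autoImplicit false

open Finset

namespace Pool.Agent.Helper161SP

open Pool.Agent.H394R2.Ones Pool.Agent.H820R3.DG

open PowerSeries (coeff)

/-- `1 + b X + b ^ 2 X ^ 2 + ⋯` -/
noncomputable def EE (b : ℕ) : PowerSeries ℕ := PowerSeries.mk fun n => b ^ n

lemma coeff_EE_succ (b : ℕ) (F : PowerSeries ℕ) (n : ℕ) :
    coeff (n + 1) (F * EE b) = b * coeff n (F * EE b) + coeff (n + 1) F := by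
  rw [PowerSeries.coeff_mul, PowerSeries.coeff_mul, Finset.Nat.sum_antidiagonal_succ']
  simp only [EE, PowerSeries.coeff_mk, pow_zero, mul_one]
  rw [mul_sum, add_comm]
  congr 1
  refine sum_congr rfl fun p _ => ?_
  rw [pow_succ]
  ring

lemma coeff_EE_zero (b : ℕ) (F : PowerSeries ℕ) :
    coeff 0 (F * EE b) = coeff 0 F := by
  rw [PowerSeries.coeff_mul]
  simp [EE]

/-- the sum of the first coefficients -/
noncomputable def SF (F : PowerSeries ℕ) (n : ℕ) : ℕ := coeff n (F * EE 1)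

lemma SF_succ (F : PowerSeries ℕ) (n : ℕ) : SF F (n + 1) = SF F n + coeff (n + 1) F := by
  unfold SF
  rw [coeff_EE_succ, one_mul]

lemma SF_zero (F : PowerSeries ℕ) : SF F 0 = coeff 0 F := coeff_EE_zero 1 F

lemma SF_eq (F : PowerSeries ℕ) (n : ℕ) : SF F n = ∑ i ∈ range (n + 1), coeff i F := by
  induction n with
  | zero => rw [SF_zero]; simp
  | succ n ih => rw [SF_succ, ih, sum_range_succ _ (n + 1)]

lemma SF_mono (F : PowerSeries ℕ) {m n : ℕ} (h : m ≤ n) : SF F m ≤ SF F n := by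
  rw [SF_eq, SF_eq]
  exact sum_le_sum_of_subset (range_mono (by omega))

lemma SF_mul (F G : PowerSeries ℕ) (n : ℕ) : SF (F * G) n ≤ SF F n * SF G n := by
  unfold SF
  rw [mul_assoc, PowerSeries.coeff_mul]
  have h1 : ∀ p ∈ antidiagonal n, coeff p.1 F * coeff p.2 (G * EE 1) ≤
      coeff p.1 F * coeff n (G * EE 1) := by
    intro p hp
    rw [Finset.HasAntidiagonal.mem_antidiagonal] at hp
    exact Nat.mul_le_mul_left _ (SF_mono G (by omega))
  refine (sum_le_sum h1).trans ?_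
  rw [← sum_mul]
  refine Nat.mul_le_mul_right _ (le_of_eq ?_)
  rw [PowerSeries.coeff_mul]
  refine sum_congr rfl fun p _ => ?_
  simp [EE]

/-- the tail of the expansion `F` of `x` after the position `n` -/
noncomputable def tl (b : ℕ) (F : PowerSeries ℕ) (x : ℝ) (n : ℕ) : ℝ :=
  x * (b : ℝ) ^ n - (coeff n (F * EE b) : ℕ)

section
variable {b : ℕ}

lemma tl_zero (F : PowerSeries ℕ) (x : ℝ) : tl b F x 0 = x - (coeff 0 F : ℕ) := by
  unfold tl
  rw [coeff_EE_zero]
  simp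

lemma tl_succ (F : PowerSeries ℕ) (x : ℝ) (n : ℕ) :
    tl b F x (n + 1) = b * tl b F x n - (coeff (n + 1) F : ℕ) := by
  unfold tl
  rw [coeff_EE_succ, pow_succ]
  push_cast
  ring

lemma tl_one (n : ℕ) : tl b 1 1 n = 0 := by
  unfold tl
  rw [one_mul, one_mul, EE, PowerSeries.coeff_mk]
  push_cast
  ring

lemma tl_mul (F G : PowerSeries ℕ) (x y : ℝ) (n : ℕ) :
    tl b (F * G) (x * y) n =
      ∑ p ∈ antidiagonal n, (coeff p.1 G : ℕ) * tl b F x p.2 + x * tl b G y n := by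
  unfold tl
  have h1 : F * G * EE b = G * (F * EE b) := by ring
  rw [h1, PowerSeries.coeff_mul (n := n) (φ := G) (ψ := F * EE b),
    PowerSeries.coeff_mul (n := n) (φ := G) (ψ := EE b)]
  simp only [mul_sub, sum_sub_distrib, EE, PowerSeries.coeff_mk]
  push_cast
  rw [mul_sum]
  have h2 : ∀ p : ℕ × ℕ, ((coeff p.1 G : ℕ) : ℝ) * (x * (b : ℝ) ^ p.2) =
      x * (((coeff p.1 G : ℕ) : ℝ) * (b : ℝ) ^ p.2) := fun p => by ring
  simp only [h2]
  ring

lemma tl_zeros (F : PowerSeries ℕ) (x : ℝ) (L : ℕ) : ∀ h : ℕ,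
    (∀ k, L < k → k ≤ L + h → coeff k F = 0) → tl b F x (L + h) = (b : ℝ) ^ h * tl b F x L := by
  intro h
  induction h with
  | zero => intro _; simp
  | succ h ih =>
    intro hz
    rw [← Nat.add_assoc, tl_succ, ih (fun k h1 h2 => hz k h1 (by omega)),
      hz (L + h + 1) (by omega) (by omega), pow_succ]
    push_cast
    ring

lemma tl_sum (F : PowerSeries ℕ) (x : ℝ) (n : ℕ) :
    ((b : ℝ) - 1) * ∑ m ∈ range n, tl b F x m + tl b F x 0 + (coeff 0 F : ℕ) =
      tl b F x n + (SF F n : ℕ) := by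
  induction n with
  | zero => rw [SF_zero]; simp
  | succ n ih =>
    rw [sum_range_succ, SF_succ, tl_succ]
    push_cast
    linarith

/-- the expansion of `1 + y` -/
noncomputable def Fy (b : ℕ) (y : ℝ) : PowerSeries ℕ := PowerSeries.mk (xx b y)

lemma tl_Fy (hb : 2 ≤ b) {y : ℝ} (hy0 : 0 < y) (hy1 : y < 1) (n : ℕ) :
    tl b (Fy b y) (1 + y) n = ep b y n := by
  induction n with
  | zero =>
    rw [tl_zero, Fy, PowerSeries.coeff_mk, xx_zero]
    unfold ep
    rw [B_zero hy0 hy1]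
    simp
  | succ n ih =>
    rw [tl_succ, ih, ep_succ hb, Fy, PowerSeries.coeff_mk, xx_succ]

lemma SF_Fy (y : ℝ) (n : ℕ) : SF (Fy b y) n = KK b y n := by
  rw [SF_eq]
  unfold KK Fy
  simp

variable {ι : Type} [DecidableEq ι]

/-- the expansion of the product of the numbers `1 + y i`, `i ∈ I` -/
noncomputable def FI (b : ℕ) (y : ι → ℝ) (I : Finset ι) : PowerSeries ℕ := ∏ i ∈ I, Fy b (y i)

lemma coeff_zero_FI (y : ι → ℝ) (I : Finset ι) : coeff 0 (FI b y I) = 1 := by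
  unfold FI
  rw [PowerSeries.coeff_zero_eq_constantCoeff, map_prod]
  refine prod_eq_one fun i _ => ?_
  rw [← PowerSeries.coeff_zero_eq_constantCoeff_apply, Fy, PowerSeries.coeff_mk, xx_zero]

lemma coeff_FI_mono (y : ι → ℝ) {I J : Finset ι} (h : I ⊆ J) (n : ℕ) :
    coeff n (FI b y I) ≤ coeff n (FI b y J) := by
  have h1 : FI b y J = FI b y (J \ I) * FI b y I := by
    unfold FI
    exact (prod_sdiff h).symm
  rw [h1, PowerSeries.coeff_mul]
  calc coeff n (FI b y I) = coeff 0 (FI b y (J \ I)) * coeff n (FI b y I) := by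
        rw [coeff_zero_FI, one_mul]
    _ ≤ _ := by
        refine single_le_sum (f := fun p : ℕ × ℕ => coeff p.1 (FI b y (J \ I)) *
          coeff p.2 (FI b y I)) (fun _ _ => Nat.zero_le _) (a := (0, n)) ?_
        rw [Finset.HasAntidiagonal.mem_antidiagonal]
        simp

lemma tl_FI_nonneg (hb : 2 ≤ b) (y : ι → ℝ) (hy0 : ∀ i, 0 < y i) (hy1 : ∀ i, y i < 1)
    (I : Finset ι) (n : ℕ) : 0 ≤ tl b (FI b y I) (∏ i ∈ I, (1 + y i)) n := by
  induction I using Finset.induction_on generalizing n with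
  | empty => unfold FI; rw [prod_empty, prod_empty, tl_one]
  | insert a I ha ih =>
    have h1 : FI b y (insert a I) = Fy b (y a) * FI b y I := by
      unfold FI; exact prod_insert ha
    rw [h1, prod_insert ha, tl_mul]
    refine add_nonneg (sum_nonneg fun p _ => ?_) (mul_nonneg (by have := hy0 a; linarith) (ih n))
    rw [tl_Fy hb (hy0 a) (hy1 a)]
    exact mul_nonneg (Nat.cast_nonneg _) (ep_nonneg (hy0 a) _)

lemma SF_FI (y : ι → ℝ) (I : Finset ι) (n : ℕ) :
    SF (FI b y I) n ≤ ∏ i ∈ I, KK b (y i) n := by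
  induction I using Finset.induction_on with
  | empty =>
    unfold FI
    rw [prod_empty, prod_empty, SF, one_mul, EE, PowerSeries.coeff_mk, one_pow]
  | insert a I ha ih =>
    have h1 : FI b y (insert a I) = Fy b (y a) * FI b y I := by
      unfold FI; exact prod_insert ha
    rw [h1, prod_insert ha]
    refine (SF_mul _ _ _).trans ?_
    rw [SF_Fy]
    exact Nat.mul_le_mul_left _ ih

/-- the tail of a product with one more factor -/
lemma tl_insert_le (hb : 2 ≤ b) {z : ℝ} (hz0 : 0 < z) (hz1 : z < 1) (G : PowerSeries ℕ) (x : ℝ)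
    (n : ℕ) (hG : 0 ≤ tl b G x n) :
    tl b (Fy b z * G) ((1 + z) * x) n ≤ (SF G n : ℕ) + 2 * tl b G x n := by
  rw [tl_mul]
  refine add_le_add ?_ (mul_le_mul_of_nonneg_right (by linarith) hG)
  have h1 : (SF G n : ℕ) = ∑ p ∈ antidiagonal n, coeff p.1 G := by
    rw [SF, PowerSeries.coeff_mul]
    refine sum_congr rfl fun p _ => ?_
    simp [EE]
  rw [h1]
  push_cast
  refine sum_le_sum fun p _ => ?_
  rw [tl_Fy hb hz0 hz1]
  calc ((coeff p.1 G : ℕ) : ℝ) * ep b z p.2 ≤ ((coeff p.1 G : ℕ) : ℝ) * 1 :=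
        mul_le_mul_of_nonneg_left (ep_lt _).le (Nat.cast_nonneg _)
    _ = _ := mul_one _

lemma prod_KK_pos (y : ι → ℝ) (hy0 : ∀ i, 0 < y i) (hy1 : ∀ i, y i < 1)
    (I : Finset ι) (n : ℕ) : 1 ≤ ∏ i ∈ I, KK b (y i) n :=
  Finset.one_le_prod' fun i _ => KK_pos (hy0 i) (hy1 i) n

lemma tl_FI_le (hb : 2 ≤ b) (y : ι → ℝ) (hy0 : ∀ i, 0 < y i) (hy1 : ∀ i, y i < 1)
    (I : Finset ι) (n : ℕ) :
    tl b (FI b y I) (∏ i ∈ I, (1 + y i)) n ≤ 3 ^ I.card * ((∏ i ∈ I, KK b (y i) n : ℕ) : ℝ) := by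
  induction I using Finset.induction_on with
  | empty => unfold FI; rw [prod_empty, prod_empty, tl_one]; simp
  | insert a I ha ih =>
    have h1 : FI b y (insert a I) = Fy b (y a) * FI b y I := by
      unfold FI; exact prod_insert ha
    rw [h1, prod_insert ha, prod_insert ha, card_insert_of_notMem ha]
    have h2 := tl_insert_le hb (hy0 a) (hy1 a) (FI b y I) (∏ i ∈ I, (1 + y i)) n
      (tl_FI_nonneg hb y hy0 hy1 I n)
    have h3 : ((SF (FI b y I) n : ℕ) : ℝ) ≤ ((∏ i ∈ I, KK b (y i) n : ℕ) : ℝ) := by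
      exact_mod_cast SF_FI y I n
    have h4 : (1 : ℝ) ≤ (KK b (y a) n : ℝ) := by exact_mod_cast KK_pos (hy0 a) (hy1 a) n
    set Q : ℝ := ((∏ i ∈ I, KK b (y i) n : ℕ) : ℝ) with hQ
    have hQ0 : 0 ≤ Q := Nat.cast_nonneg _
    have h5 : (1 : ℝ) ≤ 3 ^ I.card := one_le_pow₀ (by norm_num)
    push_cast
    rw [pow_succ]
    have hQ' : ((∏ i ∈ I, (KK b (y i) n : ℝ))) = Q := by rw [hQ]; push_cast; rfl
    rw [hQ']
    calc tl b (Fy b (y a) * FI b y I) ((1 + y a) * ∏ i ∈ I, (1 + y i)) n ≤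
        Q + 2 * (3 ^ I.card * Q) := by linarith
      _ ≤ 3 ^ I.card * Q + 2 * (3 ^ I.card * Q) := by nlinarith
      _ = 3 ^ I.card * 3 * (1 * Q) := by ring
      _ ≤ 3 ^ I.card * 3 * (KK b (y a) n * Q) := by gcongr

end

end Pool.Agent.Helper161SP
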