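import Pool.Agent.Helper161SP.Rel

/-!
# Sumsets of places of digits of elements of a real number field
-/

set_option autoImplicit false

open Finset Filter

namespace Pool.Agent.Helper161SP

open Pool.Agent.H394R2.Ones Pool.Agent.H820R3.DG

open PowerSeries (coeff)

lemma log_scale (b : ℝ) (hb : 2 ≤ b) (k : ℕ) (P N n : ℝ) (hP : 0 ≤ P) (hN : 0 ≤ N) (hn : 0 < n)
    (h : P ≤ b ^ k * N) : Real.log (2 + P / n) ≤
      (1 + k * Real.log b / Real.log 2) * Real.log (2 + N / n) := by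
  have hl2 : 0 < Real.log 2 := Real.log_pos (by norm_num)
  have hlb : 0 ≤ Real.log b := Real.log_nonneg (by linarith)
  have hNn : 0 ≤ N / n := div_nonneg hN hn.le
  have hPn : 0 ≤ P / n := div_nonneg hP hn.le
  have h5 : P / n ≤ b ^ k * (N / n) := by
    rw [← mul_div_assoc]
    exact div_le_div_of_nonneg_right h hn.le
  have hbs : (1 : ℝ) ≤ b ^ k := one_le_pow₀ (by linarith)
  have h6 : 2 + P / n ≤ b ^ k * (2 + N / n) := by linarith
  have h7 : Real.log 2 ≤ Real.log (2 + N / n) := Real.log_le_log (by norm_num) (by linarith)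
  have h8 : 1 ≤ Real.log (2 + N / n) / Real.log 2 := by rw [le_div_iff₀ hl2, one_mul]; exact h7
  have h9 : 0 ≤ (k : ℝ) * Real.log b := by positivity
  calc Real.log (2 + P / n) ≤ Real.log (b ^ k * (2 + N / n)) :=
        Real.log_le_log (by linarith) h6
    _ = k * Real.log b + Real.log (2 + N / n) := by
      rw [Real.log_mul (by positivity) (by linarith), Real.log_pow]
    _ ≤ k * Real.log b * (Real.log (2 + N / n) / Real.log 2) + Real.log (2 + N / n) := by
      nlinarith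
    _ = _ := by ring

lemma final_step {C G A S Sg L L' n : ℝ} (hC : 0 < C) (hG : 0 < G) (h : n ≤ C * (Sg * L'))
    (hS : Sg ≤ A * S) (hL : L' ≤ G * L) (hL' : 0 ≤ L') (hA : 0 < A) (hS0 : 0 ≤ S) :
    1 / (C * (A * G)) * n ≤ S * L := by
  have h1 : Sg * L' ≤ (A * S) * (G * L) :=
    mul_le_mul hS hL hL' (by positivity)
  have h2 : n ≤ C * ((A * S) * (G * L)) := h.trans (mul_le_mul_of_nonneg_left h1 hC.le)
  have hpos : 0 < C * (A * G) := by positivity
  rw [div_mul_eq_mul_div, one_mul, div_le_iff₀ hpos]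
  linarith

/-- the `k`-th digit after the point of `x i` in base `b` is not `e i` -/
def Ne (b : ℕ) {s : ℕ} (x : Fin (s + 1) → ℝ) (e : Fin (s + 1) → ℤ) (i : Fin (s + 1)) (k : ℕ) :
    Prop := 1 ≤ k ∧ digit b (x i) k ≠ e i

/-- the number whose expansion is used -/
noncomputable def YY {s : ℕ} (x : Fin (s + 1) → ℝ) (e : Fin (s + 1) → ℤ) (i : Fin (s + 1)) : ℝ :=
  Int.fract (if e i = 0 then x i else -x i)

section
variable {b s : ℕ} {x : Fin (s + 1) → ℝ} {e : Fin (s + 1) → ℤ}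

lemma YY_irr (hirr : ∀ i, Irrational (x i)) (i : Fin (s + 1)) : Irrational (YY x e i) := by
  have h : ∀ z : ℝ, Irrational z → Irrational (Int.fract z) := fun z hz => by
    have : Int.fract z = z - (⌊z⌋ : ℤ) := rfl
    rw [this]
    exact hz.sub_intCast _
  unfold YY
  split_ifs
  · exact h _ (hirr i)
  · exact h _ (hirr i).neg

lemma YY_pos (hirr : ∀ i, Irrational (x i)) (i : Fin (s + 1)) : 0 < YY x e i :=
  lt_of_le_of_ne (Int.fract_nonneg _) (Ne.symm (YY_irr hirr i).ne_zero)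

lemma YY_lt (i : Fin (s + 1)) : YY x e i < 1 := Int.fract_lt_one _

lemma YY_rel (i : Fin (s + 1)) : ∃ α β : ℚ, x i = α * (1 + YY x e i) + β := by
  unfold YY
  split_ifs
  · refine ⟨1, (⌊x i⌋ : ℚ) - 1, ?_⟩
    have := Int.floor_add_fract (x i)
    push_cast
    linarith
  · refine ⟨-1, -((⌊-x i⌋ : ℚ) - 1), ?_⟩
    have := Int.floor_add_fract (-x i)
    push_cast
    linarith

lemma YY_mem (K : IntermediateField ℚ ℝ) (hx : ∀ i, x i ∈ K) (i : Fin (s + 1)) :
    YY x e i ∈ K := by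
  have h : ∀ z ∈ K, Int.fract z ∈ K := fun z hz => by
    have : Int.fract z = z - (⌊z⌋ : ℤ) := rfl
    rw [this]
    exact K.sub_mem hz (K.intCast_mem _)
  unfold YY
  split_ifs
  · exact h _ (hx i)
  · exact h _ (K.neg_mem (hx i))

lemma Ne_iff (hb : 2 ≤ b) (hirr : ∀ i, Irrational (x i)) (he : ∀ i, e i = 0 ∨ e i = b - 1)
    (i : Fin (s + 1)) (k : ℕ) (hk : 1 ≤ k) : Ne b x e i k ↔ xx b (YY x e i) k ≠ 0 := by
  obtain ⟨k', rfl⟩ : ∃ k', k = k' + 1 := ⟨k - 1, by omega⟩
  unfold Ne YY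
  rw [xx_succ]
  have hbz : (2 : ℤ) ≤ b := by exact_mod_cast hb
  split_ifs with h
  · have h1 := Pool.Agent.R474.AG.digit_fract hb (ξ := x i) k'
    rw [h, h1]
    constructor
    · rintro ⟨-, h2⟩ h3
      exact h2 (by rw [h3]; rfl)
    · intro h2
      exact ⟨by omega, fun h3 => h2 (by exact_mod_cast h3)⟩
  · have h1 := Pool.Agent.R474.AG.digit_fract hb (ξ := -x i) k'
    rw [digit_neg hb (hirr i)] at h1
    rw [(he i).resolve_left h]
    constructor
    · rintro ⟨-, h2⟩ h3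
      rw [h3] at h1
      push_cast at h1
      exact h2 (by linarith)
    · intro h2
      refine ⟨by omega, fun h3 => h2 ?_⟩
      rw [h3, sub_self] at h1
      exact_mod_cast h1.symm

open Classical in
lemma KK_le_cnt (hb : 2 ≤ b) (hirr : ∀ i, Irrational (x i)) (he : ∀ i, e i = 0 ∨ e i = b - 1)
    (i : Fin (s + 1)) (n : ℕ) :
    KK b (YY x e i) n ≤ 1 + (b - 1) * ((Icc 1 n).filter (Ne b x e i)).card := by
  unfold KK
  rw [sum_range_succ', xx_zero, add_comm 1]
  refine Nat.add_le_add_right ?_ 1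
  have e1 : ∑ k ∈ range n, xx b (YY x e i) (k + 1) = ∑ k ∈ Icc 1 n, xx b (YY x e i) k := by
    have : Icc 1 n = Ico 1 (n + 1) := by ext k; simp only [mem_Icc, mem_Ico]; omega
    rw [this, sum_Ico_eq_sum_range]
    refine sum_congr (by simp) fun k _ => by rw [add_comm]
  rw [e1, card_filter, mul_sum]
  refine sum_le_sum fun k hk => ?_
  obtain ⟨hk1, -⟩ := mem_Icc.1 hk
  split_ifs with h
  · obtain ⟨k', rfl⟩ : ∃ k', k = k' + 1 := ⟨k - 1, by omega⟩
    rw [xx_succ, mul_one]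
    unfold Pool.Agent.H394R2.Ones.x
    have := Nat.mod_lt (B b (YY x e i) (k' + 1)) (show 0 < b by omega)
    omega
  · rw [mul_zero, Nat.le_zero]
    by_contra h2
    exact h ((Ne_iff hb hirr he i k hk1).2 h2)

open Classical in
theorem sums_main (hb : 2 ≤ b) (K : IntermediateField ℚ ℝ) [FiniteDimensional ℚ K]
    (hx : ∀ i, x i ∈ K) (hirr : ∀ i, Irrational (x i))
    (hspan : (Submodule.span ℚ (Set.range fun I : Finset (Fin s) => ∏ i ∈ I, x i.succ) : Set ℝ) =
      (K : Set ℝ)) (he : ∀ i, e i = 0 ∨ e i = b - 1) :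
    ∃ c : ℝ, 0 < c ∧ ∀ᶠ n : ℕ in atTop,
      c * n ≤ (((Icc 1 n).filter (IsSum (Ne b x e))).card : ℝ) *
        Real.log (2 + (∏ i, (((Icc 1 n).filter (Ne b x e i)).card : ℝ)) / n) := by
  have hb2 : (2 : ℝ) ≤ b := by exact_mod_cast hb
  have halg : ∀ i, IsAlgebraic ℚ (YY x e i) := fun i => by
    have h1 : Algebra.IsAlgebraic ℚ K := Algebra.IsAlgebraic.of_finite ℚ K
    have h2 := h1.isAlgebraic (⟨YY x e i, YY_mem K hx i⟩ : K)
    exact (isAlgebraic_algebraMap_iff (algebraMap K ℝ).injective).2 h2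
  -- there is at least one further factor
  have hs : 0 < s := by
    rcases Nat.eq_zero_or_pos s with h | h
    · exfalso
      subst h
      have h1 : x 0 ∈ (K : Set ℝ) := hx 0
      rw [← hspan, SetLike.mem_coe, Submodule.mem_span_range_iff_exists_fun] at h1
      obtain ⟨c, hc⟩ := h1
      rw [Fintype.sum_eq_single ∅ (fun I hI => absurd (Subsingleton.elim I ∅) hI), prod_empty,
        Rat.smul_def, mul_one] at hc
      exact hirr 0 ⟨_, hc⟩
    · exact h
  choose α β hαβ using fun i => YY_rel (x := x) (e := e) i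
  obtain ⟨q, hq, p, hrel⟩ := relation K x hspan (YY x e) α β hαβ (YY_mem K hx)
  have hfin : Nonempty (Fin s) := ⟨⟨0, hs⟩⟩
  obtain ⟨i1⟩ := hfin
  obtain ⟨C, hC, n0, hmain⟩ := main_ineq hb (YY_pos hirr 0) (YY_lt 0) (halg 0) (YY_irr hirr 0)
    (fun i : Fin s => YY x e i.succ) (fun i => YY_pos hirr _) (fun i => YY_lt _) q hq p hrel i1
    (halg _) (YY_irr hirr _)
  -- the counts are not zero
  have hcnt : ∀ i, ∀ᶠ n : ℕ in atTop, 1 ≤ ((Icc 1 n).filter (Ne b x e i)).card := by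
    intro i
    obtain ⟨D, hD, c, hc0, hc1, n1, hK⟩ := KK_pow hb (YY_pos hirr i) (YY_lt i) (halg i)
      (YY_irr hirr i)
    obtain ⟨n2, hn2⟩ := exists_nat_gt (1 / c)
    filter_upwards [eventually_ge_atTop n1, eventually_ge_atTop n2] with n h1 h2
    by_contra hcon
    have h3 : ((Icc 1 n).filter (Ne b x e i)).card = 0 := by omega
    have h4 := KK_le_cnt hb hirr he i n
    rw [h3, mul_zero, add_zero] at h4
    have h5 := hK n h1
    have h6 : (KK b (YY x e i) n : ℝ) ^ D ≤ 1 := by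
      refine pow_le_one₀ (Nat.cast_nonneg _) ?_
      exact_mod_cast h4
    have h7 : 1 / c < n := lt_of_lt_of_le hn2 (by exact_mod_cast h2)
    rw [div_lt_iff₀ hc0] at h7
    linarith
  have hcnt' : ∀ᶠ n : ℕ in atTop, ∀ i, 1 ≤ ((Icc 1 n).filter (Ne b x e i)).card :=
    eventually_all.2 hcnt
  have hne : ∀ i, ∃ a, Ne b x e i a := by
    intro i
    obtain ⟨n, hn⟩ := (hcnt i).exists
    obtain ⟨a, ha⟩ := card_pos.1 (Nat.lt_of_lt_of_le Nat.zero_lt_one hn)
    exact ⟨a, (mem_filter.1 ha).2⟩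
  choose a ha using hne
  set c0 : ℕ := ∑ i, a i with hc0
  have hSg : ∀ n, Sg b (YY x e 0) (fun i : Fin s => YY x e i.succ) n ≤
      2 ^ (s + 1) * (((Icc 1 n).filter (IsSum (Ne b x e))).card + c0) := by
    intro n
    refine le_trans (le_of_eq ?_) (count_sums (Ne b x e) (fun i k h => h.1) a ha
      (fun k => 1 ≤ coeff k (FA b (YY x e 0) (fun i : Fin s => YY x e i.succ))) (fun m hm => ?_) n)
    · unfold Sg
      congr!
    have h1 : FA b (YY x e 0) (fun i : Fin s => YY x e i.succ) =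
        ∏ i : Fin (s + 1), Fy b (YY x e i) := by
      rw [Fin.prod_univ_succ]
      rfl
    rw [h1] at hm
    obtain ⟨l, hl1, hl2⟩ := coeff_prod_ne (fun i : Fin (s + 1) => Fy b (YY x e i)) m
      (Nat.one_le_iff_ne_zero.1 hm)
    refine ⟨l, hl1, fun i => ?_⟩
    rcases Nat.eq_zero_or_pos (l i) with h | h
    · exact Or.inl h
    · refine Or.inr ((Ne_iff hb hirr he i (l i) h).2 ?_)
      have h2 := hl2 i
      rwa [Fy, PowerSeries.coeff_mk] at h2
  have hS1 : ∀ n, c0 ≤ n → 1 ≤ ((Icc 1 n).filter (IsSum (Ne b x e))).card := by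
    intro n hn
    refine card_pos.2 ⟨c0, mem_filter.2 ⟨mem_Icc.2 ⟨?_, hn⟩, a, ha, rfl⟩⟩
    exact (ha 0).1.trans (single_le_sum (f := a) (fun _ _ => Nat.zero_le _) (mem_univ 0))
  have hl2 : 0 < Real.log 2 := Real.log_pos (by norm_num)
  set G : ℝ := 1 + (s + 1) * Real.log b / Real.log 2 with hG
  have hlb : 0 ≤ Real.log b := Real.log_nonneg (by linarith)
  have hG1 : 0 < G := by positivity
  set C' : ℝ := C * (2 ^ (s + 1) * (1 + c0) * G) with hC'
  have hC'0 : 0 < C' := by positivity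
  refine ⟨1 / C', by positivity, ?_⟩
  filter_upwards [eventually_ge_atTop n0, eventually_ge_atTop (max c0 1), hcnt'] with n h1 h2 h3
  have hn1 : (1 : ℝ) ≤ n := by exact_mod_cast (le_max_right c0 1).trans h2
  have hn0 : (0 : ℝ) < n := by linarith
  have h4 := hmain n h1
  set S : ℝ := (((Icc 1 n).filter (IsSum (Ne b x e))).card : ℝ) with hS
  have hS1' : 1 ≤ S := by rw [hS]; exact_mod_cast hS1 n ((le_max_left c0 1).trans h2)
  set N : ℝ := ∏ i, (((Icc 1 n).filter (Ne b x e i)).card : ℝ) with hN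
  have hN0 : 0 ≤ N := prod_nonneg fun _ _ => Nat.cast_nonneg _
  have hPP : (PP b (YY x e 0) (fun i : Fin s => YY x e i.succ) n : ℝ) ≤ (b : ℝ) ^ (s + 1) * N := by
    have h5 : (PP b (YY x e 0) (fun i : Fin s => YY x e i.succ) n : ℝ) =
        ∏ i : Fin (s + 1), (KK b (YY x e i) n : ℝ) := by
      rw [Fin.prod_univ_succ]
      unfold PP
      push_cast
      rfl
    have h6 : (b : ℝ) ^ (s + 1) * N =
        ∏ i : Fin (s + 1), ((b : ℝ) * (((Icc 1 n).filter (Ne b x e i)).card : ℝ)) := by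
      rw [prod_mul_distrib, prod_const, card_univ, Fintype.card_fin]
    rw [h5, h6]
    refine prod_le_prod (fun _ _ => Nat.cast_nonneg _) fun i _ => ?_
    have h7 := KK_le_cnt hb hirr he i n
    have h8 : KK b (YY x e i) n ≤ b * ((Icc 1 n).filter (Ne b x e i)).card := by
      refine h7.trans ?_
      have h9 := h3 i
      obtain ⟨b', rfl⟩ : ∃ b', b = b' + 1 := ⟨b - 1, by omega⟩
      rw [Nat.add_sub_cancel, Nat.add_mul, one_mul]
      omega
    exact_mod_cast h8
  have hlog : Real.log (2 + (PP b (YY x e 0) (fun i : Fin s => YY x e i.succ) n : ℝ) / n) ≤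
      G * Real.log (2 + N / n) := by
    have h5 := log_scale (b : ℝ) hb2 (s + 1) _ N n (Nat.cast_nonneg _) hN0 hn0 hPP
    push_cast at h5
    exact h5
  have hL0 : 0 ≤ Real.log (2 + N / n) := Real.log_nonneg (by
    have : 0 ≤ N / n := div_nonneg hN0 hn0.le
    linarith)
  have hSg' : (Sg b (YY x e 0) (fun i : Fin s => YY x e i.succ) n : ℝ) ≤
      2 ^ (s + 1) * (1 + c0) * S := by
    have h5 : (Sg b (YY x e 0) (fun i : Fin s => YY x e i.succ) n : ℝ) ≤
        2 ^ (s + 1) * (S + c0) := by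
      rw [hS]
      exact_mod_cast hSg n
    refine h5.trans ?_
    rw [mul_assoc]
    refine mul_le_mul_of_nonneg_left ?_ (by positivity)
    have h6 : (0 : ℝ) ≤ c0 := Nat.cast_nonneg _
    nlinarith
  refine final_step hC hG1 h4 hSg' hlog ?_ (by positivity) (by linarith)
  · have : (0 : ℝ) ≤ (PP b (YY x e 0) (fun i : Fin s => YY x e i.succ) n : ℝ) / n := by positivity
    exact Real.log_nonneg (by linarith)

end

end Pool.Agent.Helper161SP
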