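import Pool.Agent.Helper161SP.Bad

/-!
# The main inequality
-/

set_option autoImplicit false

open Finset

namespace Pool.Agent.Helper161SP

open Pool.Agent.H394R2.Ones Pool.Agent.H820R3.DG

open PowerSeries (coeff)

section
variable {b : ℕ} {ι : Type} [Fintype ι] [DecidableEq ι]

/-- the expansion of the product of all numbers -/
noncomputable def FA (b : ℕ) (y0 : ℝ) (y : ι → ℝ) : PowerSeries ℕ := Fy b y0 * FI b y univ

open Classical in
/-- the number of `k ≤ n` in the support of the product of all expansions -/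
noncomputable def Sg (b : ℕ) (y0 : ℝ) (y : ι → ℝ) (n : ℕ) : ℕ :=
  ((range (n + 1)).filter (fun k => 1 ≤ coeff k (FA b y0 y))).card

/-- the product of the digit sums -/
noncomputable def PP (b : ℕ) (y0 : ℝ) (y : ι → ℝ) (n : ℕ) : ℕ := KK b y0 n * ∏ i, KK b (y i) n

lemma FI_le_FA (y0 : ℝ) (y : ι → ℝ) (n : ℕ) : coeff n (FI b y univ) ≤ coeff n (FA b y0 y) := by
  rw [FA, PowerSeries.coeff_mul]
  calc coeff n (FI b y univ) = coeff 0 (Fy b y0) * coeff n (FI b y univ) := by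
        rw [Fy, PowerSeries.coeff_mk, xx_zero, one_mul]
    _ ≤ _ := by
        refine single_le_sum (f := fun p : ℕ × ℕ => coeff p.1 (Fy b y0) *
          coeff p.2 (FI b y univ)) (fun _ _ => Nat.zero_le _) (a := (0, n)) ?_
        rw [Finset.HasAntidiagonal.mem_antidiagonal]
        simp

lemma one_le_Sg (y0 : ℝ) (y : ι → ℝ) (n : ℕ) : 1 ≤ Sg b y0 y n := by
  classical
  unfold Sg
  rw [Nat.one_le_iff_ne_zero, card_ne_zero]
  refine ⟨0, mem_filter.2 ⟨by simp, ?_⟩⟩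
  exact le_trans (by rw [coeff_zero_FI]) (FI_le_FA y0 y 0)

open Classical in
lemma B_le_Sg (y0 : ℝ) (y : ι → ℝ) (n : ℕ) :
    ((range n).filter (fun m => 1 ≤ coeff m (FI b y univ))).card ≤ Sg b y0 y n := by
  unfold Sg
  refine card_le_card fun m hm => ?_
  obtain ⟨h1, h2⟩ := mem_filter.1 hm
  exact mem_filter.2 ⟨mem_range.2 (by have := mem_range.1 h1; omega), h2.trans (FI_le_FA y0 y m)⟩

open Classical in
lemma B_le_prod (y : ι → ℝ) (n : ℕ) :
    ((range n).filter (fun m => 1 ≤ coeff m (FI b y univ))).card ≤ ∏ i, KK b (y i) n := by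
  refine le_trans ?_ (SF_FI y univ n)
  rw [SF_eq, card_filter]
  refine le_trans (sum_le_sum (g := fun m => coeff m (FI b y univ)) fun m _ => ?_)
    (sum_le_sum_of_subset (range_mono (by omega)))
  split_ifs with h
  · exact h
  · exact Nat.zero_le _

lemma SF_FA_le (y0 : ℝ) (y : ι → ℝ) (n : ℕ) : SF (FA b y0 y) n ≤ PP b y0 y n := by
  unfold FA PP
  refine (SF_mul _ _ _).trans ?_
  rw [SF_Fy]
  exact Nat.mul_le_mul_left _ (SF_FI y univ n)

open Classical in
lemma live_card' (hb : 2 ≤ b) {y0 : ℝ} (hy00 : 0 < y0) (hy01 : y0 < 1) (y : ι → ℝ)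
    (hy0 : ∀ i, 0 < y i) (hy1 : ∀ i, y i < 1) (c2 : ℝ) (hc2 : 0 < c2) (n M : ℕ) :
    (((range n).filter (fun m => c2 ≤ TA b y0 y m)).card : ℝ) ≤
      (M + 1) * Sg b y0 y n + M +
        (3 ^ (Fintype.card ι + 1) + 1) * (PP b y0 y n : ℝ) / ((b : ℝ) ^ M * c2) := by
  have hb1 : (2 : ℝ) ≤ b := by exact_mod_cast hb
  have hb0 : (0 : ℝ) < b := by linarith
  set F : Finset ℕ := (range n).filter (fun m => m + M < n ∧ c2 ≤ TA b y0 y m ∧
    ∀ k, m ≤ k → k ≤ m + M → coeff k (FA b y0 y) = 0) with hF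
  set S : Finset ℕ := (range (n + 1)).filter (fun k => 1 ≤ coeff k (FA b y0 y)) with hS
  have hScard : S.card = Sg b y0 y n := by unfold Sg; rfl
  have hsub : (range n).filter (fun m => c2 ≤ TA b y0 y m) ⊆
      ((S.biUnion fun k => Icc (k - M) k) ∪ Ico (n - M) n) ∪ F := by
    intro m hm
    obtain ⟨hm1, hm2⟩ := mem_filter.1 hm
    have hm3 := mem_range.1 hm1
    rw [mem_union, mem_union]
    by_cases h1 : m + M < n
    · by_cases h2 : ∃ k, m ≤ k ∧ k ≤ m + M ∧ 1 ≤ coeff k (FA b y0 y)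
      · obtain ⟨k, hk1, hk2, hk3⟩ := h2
        refine Or.inl (Or.inl (mem_biUnion.2 ⟨k, mem_filter.2 ⟨mem_range.2 (by omega), hk3⟩, ?_⟩))
        rw [mem_Icc]
        omega
      · right
        push Not at h2
        refine mem_filter.2 ⟨hm1, h1, hm2, fun k hk1 hk2 => ?_⟩
        have := h2 k hk1 hk2
        omega
    · exact Or.inl (Or.inr (mem_Ico.2 ⟨by omega, hm3⟩))
  have h1 := (card_le_card hsub).trans ((card_union_le _ _).trans
    (Nat.add_le_add_right (card_union_le _ _) _))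
  rw [Nat.card_Ico] at h1
  have h0 : (S.biUnion fun k => Icc (k - M) k).card ≤ (M + 1) * Sg b y0 y n := by
    refine card_biUnion_le.trans ?_
    rw [← hScard, mul_comm, ← smul_eq_mul, ← sum_const]
    refine sum_le_sum fun k _ => ?_
    rw [Nat.card_Icc]
    omega
  have h2 : ((range n).filter (fun m => c2 ≤ TA b y0 y m)).card ≤
      (M + 1) * Sg b y0 y n + M + F.card := by
    omega
  have h3 : (F.card : ℝ) * ((b : ℝ) ^ M * c2) ≤ ∑ N ∈ range n, TA b y0 y N := by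
    have h4 : ∑ m ∈ F, (b : ℝ) ^ M * c2 ≤ ∑ m ∈ F, TA b y0 y (m + M) := by
      refine sum_le_sum fun m hm => ?_
      obtain ⟨-, h5, h6, h7⟩ := mem_filter.1 hm
      have h8 := tl_zeros (b := b) (FA b y0 y) ((1 + y0) * ∏ i, (1 + y i)) m M
        (fun k hk1 hk2 => h7 k (by omega) hk2)
      have h9 : TA b y0 y (m + M) = (b : ℝ) ^ M * TA b y0 y m := h8
      rw [h9]
      exact mul_le_mul_of_nonneg_left h6 (by positivity)
    rw [sum_const, nsmul_eq_mul] at h4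
    refine h4.trans ?_
    rw [← sum_image (s := F) (g := fun m => m + M) (f := fun N => TA b y0 y N)
      (fun a _ c _ h => by simpa using h)]
    refine sum_le_sum_of_subset_of_nonneg ?_ fun N _ _ => TA_nonneg hb hy00 hy01 y hy0 hy1 _
    intro N hN
    obtain ⟨m, hm, rfl⟩ := mem_image.1 hN
    exact mem_range.2 (mem_filter.1 hm).2.1
  have h4 : ∑ N ∈ range n, TA b y0 y N ≤
      (3 ^ (Fintype.card ι + 1) + 1) * (PP b y0 y n : ℝ) := by
    have h5 := tl_sum (b := b) (FA b y0 y) ((1 + y0) * ∏ i, (1 + y i)) n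
    change ((b : ℝ) - 1) * ∑ m ∈ range n, TA b y0 y m + TA b y0 y 0 +
      (coeff 0 (FA b y0 y) : ℕ) = TA b y0 y n + (SF (FA b y0 y) n : ℕ) at h5
    have h6 := TA_le hb hy00 hy01 y hy0 hy1 n
    change TA b y0 y n ≤ 3 ^ (Fintype.card ι + 1) * (PP b y0 y n : ℝ) at h6
    have h7 : ((SF (FA b y0 y) n : ℕ) : ℝ) ≤ (PP b y0 y n : ℝ) := by
      exact_mod_cast SF_FA_le y0 y n
    have h8 := TA_nonneg hb hy00 hy01 y hy0 hy1 0
    have h9 : 0 ≤ ∑ N ∈ range n, TA b y0 y N :=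
      sum_nonneg fun N _ => TA_nonneg hb hy00 hy01 y hy0 hy1 _
    have h10 : (0 : ℝ) ≤ (coeff 0 (FA b y0 y) : ℕ) := Nat.cast_nonneg _
    nlinarith
  have hp : 0 < (b : ℝ) ^ M * c2 := by positivity
  have h5 : (F.card : ℝ) ≤
      (3 ^ (Fintype.card ι + 1) + 1) * (PP b y0 y n : ℝ) / ((b : ℝ) ^ M * c2) := by
    rw [le_div_iff₀ hp]
    exact h3.trans h4
  have h6 : (((range n).filter (fun m => c2 ≤ TA b y0 y m)).card : ℝ) ≤
      (M + 1) * Sg b y0 y n + M + F.card := by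
    exact_mod_cast h2
  linarith

/-- digit sums of an algebraic irrational number grow at least like a power -/
lemma KK_pow (hb : 2 ≤ b) {y0 : ℝ} (hy00 : 0 < y0) (hy01 : y0 < 1) (halg : IsAlgebraic ℚ y0)
    (hirr : Irrational y0) : ∃ D : ℕ, 1 ≤ D ∧ ∃ c : ℝ, 0 < c ∧ c ≤ 1 ∧ ∃ n0 : ℕ, ∀ n : ℕ, n0 ≤ n →
      c * n ≤ (KK b y0 n : ℝ) ^ D := by
  obtain ⟨P, hdeg, hP0, hP⟩ := Pool.Agent.R474.AG.exists_int_poly halg
  have hD : 2 ≤ P.natDegree := by
    rw [hdeg]
    by_contra hcon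
    have h1 := minpoly.natDegree_pos halg.isIntegral
    have h2 : (minpoly ℚ y0).natDegree = 1 := by omega
    obtain ⟨q, hq⟩ := minpoly.natDegree_eq_one_iff.1 h2
    exact hirr ⟨q, hq⟩
  have hl0 : P.leadingCoeff ≠ 0 := Polynomial.leadingCoeff_ne_zero.mpr hP0
  have hb2 : (2 : ℝ) ≤ b := by exact_mod_cast hb
  set a : ℝ := |(P.leadingCoeff : ℝ)| with ha
  have ha1 : 0 < a := abs_pos.mpr (by exact_mod_cast hl0)
  set c : ℝ := ((b : ℝ) - 1) / a with hc
  have hc0 : 0 < c := div_pos (by linarith) ha1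
  obtain ⟨n0, hn0⟩ := deg_both hb P hD hirr hP 1 1 le_rfl (by
    intro t
    simp only [range_one, sum_singleton, pow_zero, one_mul, Nat.cast_one]
    have h1 : (0 : ℤ) < |P.leadingCoeff| * (P.natDegree.factorial : ℤ) :=
      mul_pos (abs_pos.mpr hl0) (by exact_mod_cast Nat.factorial_pos _)
    have := Int.emod_nonneg (t - 1) h1.ne'
    omega) (c / 2) (by positivity)
  refine ⟨P.natDegree, by omega, min (c / 2) 1, lt_min (by positivity) one_pos, min_le_right _ _,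
    n0, fun n hn => ?_⟩
  have h1 := (hn0 n hn).1
  have h2 : ((b : ℝ) - 1) * ((1 : ℕ) : ℝ) / (((1 : ℕ) : ℝ) * |(P.leadingCoeff : ℝ)|) - c / 2 =
      c / 2 := by
    rw [← ha, Nat.cast_one, mul_one, one_mul, ← hc]
    ring
  rw [h2, digit_sum_eq hb hirr] at h1
  have h3 : Int.fract y0 = y0 := Int.fract_eq_self.2 ⟨hy00.le, hy01⟩
  rw [h3] at h1
  have h4 : ((K b y0 n : ℕ) : ℝ) ≤ (KK b y0 n : ℝ) := by
    rw [KK_eq hy00 hy01]
    push_cast
    linarith
  calc min (c / 2) 1 * n ≤ c / 2 * n :=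
        mul_le_mul_of_nonneg_right (min_le_left _ _) (Nat.cast_nonneg _)
    _ ≤ ((K b y0 n : ℕ) : ℝ) ^ P.natDegree := h1
    _ ≤ _ := pow_le_pow_left₀ (Nat.cast_nonneg _) h4 _

end

end Pool.Agent.Helper161SP
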