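import Pool.Agent.Helper161SP.Live

/-!
# The lower bound for the support of the product
-/

set_option autoImplicit false

open Finset Filter

namespace Pool.Agent.Helper161SP

open Pool.Agent.H394R2.Ones Pool.Agent.H820R3.DG

open PowerSeries (coeff)

/-- elementary estimates for the length of the blocks -/
lemma block_len (C4 t : ℝ) (hC4 : 0 ≤ C4) (ht : 0 ≤ t) :
    ∃ M : ℕ, C4 * t ≤ (2 : ℝ) ^ M ∧
      (M : ℝ) + 1 ≤ ((Real.log (1 + C4) / Real.log 2 + 1) / Real.log 2 + 2 / Real.log 2) *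
        Real.log (2 + t) := by
  have hl2 : 0 < Real.log 2 := Real.log_pos (by norm_num)
  set L := Real.log (2 + t) with hL
  have hL2 : Real.log 2 ≤ L := Real.log_le_log (by norm_num) (by linarith)
  have h0 : 0 ≤ Real.log (1 + C4) := Real.log_nonneg (by linarith)
  have hct : 0 ≤ C4 * t := mul_nonneg hC4 ht
  have h1 : 0 ≤ Real.log (1 + C4 * t) := Real.log_nonneg (by linarith)
  refine ⟨⌈Real.log (1 + C4 * t) / Real.log 2⌉₊, ?_, ?_⟩
  · set M := ⌈Real.log (1 + C4 * t) / Real.log 2⌉₊ with hM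
    have h2 : Real.log (1 + C4 * t) / Real.log 2 ≤ M := Nat.le_ceil _
    rw [div_le_iff₀ hl2] at h2
    have h3 : Real.log (1 + C4 * t) ≤ Real.log ((2 : ℝ) ^ M) := by rw [Real.log_pow]; exact h2
    have h4 := (Real.log_le_log_iff (by linarith) (by positivity)).mp h3
    linarith
  · have h2 := (Nat.ceil_lt_add_one (div_nonneg h1 hl2.le)).le
    have h3 : Real.log (1 + C4 * t) ≤ Real.log (1 + C4) + L := by
      rw [hL, ← Real.log_mul (by linarith) (by linarith)]
      exact Real.log_le_log (by linarith) (by nlinarith)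
    have h4 : (1 : ℝ) ≤ L / Real.log 2 := by rw [le_div_iff₀ hl2, one_mul]; exact hL2
    have h5 : Real.log (1 + C4 * t) / Real.log 2 ≤ (Real.log (1 + C4) + L) / Real.log 2 :=
      div_le_div_of_nonneg_right h3 hl2.le
    have h6 : Real.log (1 + C4) ≤ Real.log (1 + C4) * (L / Real.log 2) := by nlinarith
    have h7 : (Real.log (1 + C4) + L) / Real.log 2 ≤
        (Real.log (1 + C4) * (L / Real.log 2) + L) / Real.log 2 :=
      div_le_div_of_nonneg_right (by linarith) hl2.le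
    have h8 : ((Real.log (1 + C4) / Real.log 2 + 1) / Real.log 2 + 2 / Real.log 2) * L =
        (Real.log (1 + C4) * (L / Real.log 2) + L) / Real.log 2 + 2 * (L / Real.log 2) := by
      field_simp
    rw [h8]
    linarith

section
variable {b : ℕ} {ι : Type} [Fintype ι] [DecidableEq ι]

theorem main_ineq (hb : 2 ≤ b) {y0 : ℝ} (hy00 : 0 < y0) (hy01 : y0 < 1) (halg : IsAlgebraic ℚ y0)
    (hirr : Irrational y0) (y : ι → ℝ) (hy0 : ∀ i, 0 < y i) (hy1 : ∀ i, y i < 1)
    (q : ℕ) (hq : 1 ≤ q) (p : Finset ι → ℤ)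
    (hrel : (q : ℝ) * ((1 + y0) * ∏ i, (1 + y i)) = ∑ I : Finset ι, (p I : ℝ) * ∏ i ∈ I, (1 + y i))
    (i1 : ι) (halg1 : IsAlgebraic ℚ (y i1)) (hirr1 : Irrational (y i1)) :
    ∃ C : ℝ, 0 < C ∧ ∃ n0 : ℕ, ∀ n : ℕ, n0 ≤ n →
      (n : ℝ) ≤ C * (Sg b y0 y n * Real.log (2 + (PP b y0 y n : ℝ) / n)) := by
  classical
  obtain ⟨C1, hC1, hbad⟩ := bad_card' hb hy00 hy01 halg hirr y hy0 hy1 q hq p hrel i1 halg1 hirr1
  obtain ⟨D, hD, c, hc0, hc1, n1, hK⟩ := KK_pow hb hy00 hy01 halg hirr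
  obtain ⟨d, rfl⟩ : ∃ d, D = d + 1 := ⟨D - 1, by omega⟩
  have hb2 : (2 : ℝ) ≤ b := by exact_mod_cast hb
  have hb0 : (0 : ℝ) < b := by linarith
  have hqR : (1 : ℝ) ≤ q := by exact_mod_cast hq
  have hl2 : 0 < Real.log 2 := Real.log_pos (by norm_num)
  set E : ℝ := 3 ^ (Fintype.card ι + 1) + 1 with hE
  have hE1 : 1 ≤ E := by
    have : (0 : ℝ) ≤ 3 ^ (Fintype.card ι + 1) := by positivity
    linarith
  set C4 : ℝ := 16 * q * E with hC4
  have hC40 : 0 ≤ C4 := by positivity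
  set C5 : ℝ := (Real.log (1 + C4) / Real.log 2 + 1) / Real.log 2 + 2 / Real.log 2 with hC5
  have hlC4 : 0 ≤ Real.log (1 + C4) := Real.log_nonneg (by linarith)
  have hC50 : 0 ≤ C5 := by positivity
  set η : ℝ := c / (16 * (C1 + 1)) with hη
  have hη0 : 0 < η := by positivity
  obtain ⟨n2, hn2⟩ := eventually_atTop.1 (log_small (2 * d) η hη0)
  refine ⟨8 * C5 + 48 * (C1 + 1) * (2 * d + 2), by positivity, max (max n1 n2) 3, fun n hn => ?_⟩
  have hn1' : n1 ≤ n := (le_max_left _ _).trans ((le_max_left _ _).trans hn)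
  have hn2' : n2 ≤ n := (le_max_right _ _).trans ((le_max_left _ _).trans hn)
  have hn3' : 3 ≤ n := (le_max_right _ _).trans hn
  have hn3 : (3 : ℝ) ≤ n := by exact_mod_cast hn3'
  have hn0 : (0 : ℝ) < n := by linarith
  set ℓ := Real.log ((n : ℝ) + 1) with hℓ
  have hℓ0 : 0 ≤ ℓ := Real.log_nonneg (by linarith)
  set P : ℝ := (PP b y0 y n : ℝ) with hP
  have hP0 : 0 ≤ P := Nat.cast_nonneg _
  set t : ℝ := P / n with ht
  have ht0 : 0 ≤ t := div_nonneg hP0 hn0.le
  set L := Real.log (2 + t) with hL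
  have hL2 : Real.log 2 ≤ L := Real.log_le_log (by norm_num) (by linarith)
  have hL0 : 0 < L := lt_of_lt_of_le hl2 hL2
  obtain ⟨M, hM1, hM2⟩ := block_len C4 t hC40 ht0
  rw [← hL, ← hC5] at hM2
  set S : ℝ := (Sg b y0 y n : ℝ) with hS
  have hS1 : 1 ≤ S := by rw [hS]; exact_mod_cast one_le_Sg (b := b) y0 y n
  set Bn : ℝ := (((range n).filter (fun m => 1 ≤ coeff m (FI b y univ))).card : ℝ) with hBn
  have hB0 : 0 ≤ Bn := Nat.cast_nonneg _
  have hBS : Bn ≤ S := by rw [hBn, hS]; exact_mod_cast B_le_Sg (b := b) y0 y n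
  -- the count
  have h1 := hbad n
  have h2 := live_card' hb hy00 hy01 y hy0 hy1 (1 / (2 * q)) (by positivity) n M
  rw [← hE, ← hP, ← hS] at h2
  rw [← hBn, ← hℓ] at h1
  have h3 : E * P / ((b : ℝ) ^ M * (1 / (2 * q))) ≤ n / 8 := by
    have hbM : (2 : ℝ) ^ M ≤ (b : ℝ) ^ M := pow_le_pow_left₀ (by norm_num) hb2 M
    have h4 : C4 * P ≤ (b : ℝ) ^ M * n := by
      have h5 : C4 * t * n ≤ (b : ℝ) ^ M * n := mul_le_mul_of_nonneg_right (hM1.trans hbM) hn0.le
      have h6 : C4 * t * n = C4 * P := by rw [ht]; field_simp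
      linarith
    rw [div_le_iff₀ (by positivity)]
    have h7 : (n : ℝ) / 8 * ((b : ℝ) ^ M * (1 / (2 * q))) = ((b : ℝ) ^ M * n) / (16 * q) := by
      field_simp
      ring
    rw [h7, le_div_iff₀ (by positivity)]
    calc E * P * (16 * q) = C4 * P := by rw [hC4]; ring
      _ ≤ _ := h4
  have hall : (n : ℝ) ≤ (((range n).filter (fun m => TA b y0 y m < 1 / (2 * q))).card : ℝ) +
      (((range n).filter (fun m => 1 / (2 * q) ≤ TA b y0 y m)).card : ℝ) := by
    have hsub : range n ⊆ (range n).filter (fun m => TA b y0 y m < 1 / (2 * q)) ∪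
        (range n).filter (fun m => 1 / (2 * q) ≤ TA b y0 y m) := by
      intro m hm
      rw [mem_union]
      rcases lt_or_ge (TA b y0 y m) (1 / (2 * q)) with h | h
      · exact Or.inl (mem_filter.2 ⟨hm, h⟩)
      · exact Or.inr (mem_filter.2 ⟨hm, h⟩)
    have h4 := (card_le_card hsub).trans (card_union_le _ _)
    rw [card_range] at h4
    exact_mod_cast h4
  have h4 : 3 / 8 * (n : ℝ) ≤ C1 * (1 + ℓ) * (Bn + 1) + 2 * C5 * (S * L) := by
    have hM0 : (0 : ℝ) ≤ M := Nat.cast_nonneg _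
    have h5 : ((M : ℝ) + 1) * S + M ≤ 2 * ((M + 1) * S) := by nlinarith
    have h6 : ((M : ℝ) + 1) * S ≤ C5 * L * S := mul_le_mul_of_nonneg_right hM2 (by linarith)
    have h7 : 2 * C5 * (S * L) = 2 * (C5 * L * S) := by ring
    rw [h7]
    linarith
  have hSL : 0 ≤ S * L := mul_nonneg (by linarith) hL0.le
  rcases le_or_gt (C1 * (1 + ℓ) * (Bn + 1)) (n / 8) with hA | hA
  · have h5 : (n : ℝ) ≤ 8 * C5 * (S * L) := by linarith
    have h6 : 0 ≤ 48 * (C1 + 1) * (2 * (d : ℝ) + 2) * (S * L) := by positivity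
    linarith [add_mul (8 * C5) (48 * (C1 + 1) * (2 * (d : ℝ) + 2)) (S * L)]
  · -- the second case
    have hA' : (n : ℝ) / 8 < (C1 + 1) * (1 + ℓ) * (Bn + 1) := by
      have h5 : 0 ≤ (1 + ℓ) * (Bn + 1) := by positivity
      have h6 : (C1 + 1) * (1 + ℓ) * (Bn + 1) = C1 * (1 + ℓ) * (Bn + 1) + (1 + ℓ) * (Bn + 1) := by
        ring
      linarith
    set v : ℝ := (n : ℝ) ^ ((1 : ℝ) / (((2 * d : ℕ) : ℝ) + 2)) with hv
    have hv0 : 0 < v := Real.rpow_pos_of_pos hn0 _
    have hvn : v ^ (2 * d + 2) = n := by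
      rw [hv, ← Real.rpow_natCast, ← Real.rpow_mul hn0.le]
      push_cast
      rw [one_div, inv_mul_cancel₀ (by positivity), Real.rpow_one]
    have hlog := hn2 n hn2'
    rw [← hℓ, ← hv] at hlog
    have hKn := hK n hn1'
    set K0 : ℝ := (KK b y0 n : ℝ) with hK0
    have hK0' : 0 ≤ K0 := Nat.cast_nonneg _
    have hKv : c * v ^ 2 ≤ K0 := by
      have h5 : (c * v ^ 2) ^ (d + 1) ≤ K0 ^ (d + 1) := by
        refine le_trans ?_ hKn
        rw [mul_pow, ← pow_mul, show 2 * (d + 1) = 2 * d + 2 by ring, hvn]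
        refine mul_le_mul_of_nonneg_right ?_ hn0.le
        calc c ^ (d + 1) ≤ c ^ 1 := pow_le_pow_of_le_one hc0.le hc1 (by omega)
          _ = c := pow_one _
      exact le_of_pow_le_pow_left₀ (by omega) hK0' h5
    have hPK : K0 * (Bn + 1) ≤ 2 * P := by
      set Q : ℝ := ((∏ i, KK b (y i) n : ℕ) : ℝ) with hQ
      have h5 : Bn ≤ Q := by rw [hBn, hQ]; exact_mod_cast B_le_prod (b := b) y n
      have h6 : (1 : ℝ) ≤ Q := by rw [hQ]; exact_mod_cast prod_KK_pos (b := b) y hy0 hy1 univ n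
      have h7 : P = K0 * Q := by rw [hP, PP, hK0, hQ]; push_cast; rfl
      rw [h7]
      nlinarith
    have hvt : v ≤ t := by
      rw [ht, le_div_iff₀ hn0]
      have h5 : (n : ℝ) ≤ c / 2 * v * (Bn + 1) := by
        have h6 : (C1 + 1) * (1 + ℓ) * (Bn + 1) ≤ (C1 + 1) * (η * v) * (Bn + 1) := by gcongr
        have h7 : (C1 + 1) * (η * v) * (Bn + 1) = c / 16 * v * (Bn + 1) := by
          rw [hη]
          field_simp
        linarith
      have h6 : v * n ≤ v * (c / 2 * v * (Bn + 1)) := mul_le_mul_of_nonneg_left h5 hv0.le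
      have h7 : v * (c / 2 * v * (Bn + 1)) = (c * v ^ 2) * (Bn + 1) / 2 := by ring
      have h8 : (c * v ^ 2) * (Bn + 1) ≤ K0 * (Bn + 1) :=
        mul_le_mul_of_nonneg_right hKv (by linarith)
      linarith
    have hlogn : Real.log n ≤ (2 * d + 2) * L := by
      have h5 : Real.log v ≤ L := Real.log_le_log hv0 (by linarith)
      rw [hv, Real.log_rpow hn0] at h5
      push_cast at h5
      rw [one_div, inv_mul_le_iff₀ (by positivity)] at h5
      exact h5
    have h1n : (1 : ℝ) ≤ Real.log n := by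
      rw [Real.le_log_iff_exp_le hn0]
      linarith [Real.exp_one_lt_d9]
    have h2n : ℓ ≤ 2 * Real.log n := by
      have h5 : Real.log ((n : ℝ) ^ 2) = 2 * Real.log n := by rw [Real.log_pow]; push_cast; rfl
      rw [← h5, hℓ]
      exact Real.log_le_log (by linarith) (by nlinarith)
    have h5 : 1 + ℓ ≤ 3 * ((2 * d + 2) * L) := by linarith
    have h6 : Bn + 1 ≤ 2 * S := by linarith
    have h7 : (C1 + 1) * (1 + ℓ) * (Bn + 1) ≤ (C1 + 1) * (3 * ((2 * d + 2) * L)) * (2 * S) := by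
      gcongr
    have h8 : (C1 + 1) * (3 * ((2 * (d : ℝ) + 2) * L)) * (2 * S) =
        6 * (C1 + 1) * (2 * d + 2) * (S * L) := by ring
    have h9 : 0 ≤ 8 * C5 * (S * L) := by positivity
    have h10 : (8 * C5 + 48 * (C1 + 1) * (2 * (d : ℝ) + 2)) * (S * L) =
        8 * C5 * (S * L) + 8 * (6 * (C1 + 1) * (2 * d + 2) * (S * L)) := by ring
    rw [h10]
    linarith

end

end Pool.Agent.Helper161SP
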