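import Pool.Agent.Helper161SP.Main

/-!
# The relation and the sumset
-/

set_option autoImplicit false

open Finset Filter

namespace Pool.Agent.Helper161SP

open Pool.Agent.H394R2.Ones Pool.Agent.H820R3.DG

open PowerSeries (coeff)

/-- products of shifted numbers span at least as much -/
lemma span_shift {ι : Type} [DecidableEq ι] (f g : ι → ℝ) (α β : ι → ℚ)
    (h : ∀ i, f i = α i * g i + β i) (I : Finset ι) :
    ∏ i ∈ I, f i ∈ Submodule.span ℚ (Set.range fun J : Finset ι => ∏ i ∈ J, g i) := by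
  have h1 : ∏ i ∈ I, f i =
      ∑ J ∈ I.powerset, ((∏ i ∈ J, α i) * (∏ i ∈ I \ J, β i) : ℚ) • ∏ i ∈ J, g i := by
    calc ∏ i ∈ I, f i = ∏ i ∈ I, ((α i : ℝ) * g i + β i) := prod_congr rfl fun i _ => h i
      _ = ∑ J ∈ I.powerset, (∏ i ∈ J, ((α i : ℝ) * g i)) * ∏ i ∈ I \ J, (β i : ℝ) := prod_add _ _ _
      _ = _ := by
        refine sum_congr rfl fun J _ => ?_
        rw [prod_mul_distrib, Rat.smul_def]
        push_cast
        ring
  rw [h1]
  exact Submodule.sum_mem _ fun J _ => Submodule.smul_mem _ _ (Submodule.subset_span ⟨J, rfl⟩)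

lemma clear_denoms {κ : Type} [Fintype κ] (r : κ → ℚ) (v : κ → ℝ) (z : ℝ)
    (h : ∑ k, r k • v k = z) :
    ∃ q : ℕ, 1 ≤ q ∧ ∃ p : κ → ℤ, (q : ℝ) * z = ∑ k, (p k : ℝ) * v k := by
  classical
  refine ⟨∏ k, (r k).den, Nat.one_le_iff_ne_zero.2 (prod_ne_zero_iff.2 fun k _ => (r k).den_nz),
    fun k => (r k).num * ((∏ j ∈ univ.erase k, (r j).den : ℕ) : ℤ), ?_⟩
  rw [← h, mul_sum]
  refine sum_congr rfl fun k _ => ?_
  rw [Rat.smul_def, ← mul_prod_erase univ _ (mem_univ k)]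
  have h1 : ((r k : ℚ) : ℝ) * ((r k).den : ℝ) = (r k).num := by
    exact_mod_cast Rat.mul_den_eq_num (r k)
  push_cast
  rw [← h1]
  ring

theorem relation {s : ℕ} (K : IntermediateField ℚ ℝ) (x : Fin (s + 1) → ℝ)
    (hspan : (Submodule.span ℚ (Set.range fun I : Finset (Fin s) => ∏ i ∈ I, x i.succ) : Set ℝ) =
      (K : Set ℝ))
    (Y : Fin (s + 1) → ℝ) (α β : Fin (s + 1) → ℚ) (hα : ∀ i, x i = α i * (1 + Y i) + β i)
    (hY : ∀ i, Y i ∈ K) :
    ∃ q : ℕ, 1 ≤ q ∧ ∃ p : Finset (Fin s) → ℤ,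
      (q : ℝ) * ((1 + Y 0) * ∏ i : Fin s, (1 + Y i.succ)) =
        ∑ I : Finset (Fin s), (p I : ℝ) * ∏ i ∈ I, (1 + Y i.succ) := by
  have hz : (1 + Y 0) * ∏ i : Fin s, (1 + Y i.succ) ∈ K :=
    K.mul_mem (K.add_mem K.one_mem (hY 0)) (K.prod_mem fun i _ => K.add_mem K.one_mem (hY _))
  have hz1 : (1 + Y 0) * ∏ i : Fin s, (1 + Y i.succ) ∈
      Submodule.span ℚ (Set.range fun I : Finset (Fin s) => ∏ i ∈ I, x i.succ) := by
    rw [← SetLike.mem_coe, hspan]
    exact hz
  have hle : Submodule.span ℚ (Set.range fun I : Finset (Fin s) => ∏ i ∈ I, x i.succ) ≤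
      Submodule.span ℚ (Set.range fun I : Finset (Fin s) => ∏ i ∈ I, (1 + Y i.succ)) := by
    rw [Submodule.span_le]
    rintro _ ⟨I, rfl⟩
    exact span_shift (fun i : Fin s => x i.succ) (fun i => 1 + Y i.succ) (fun i => α i.succ)
      (fun i => β i.succ) (fun i => hα i.succ) I
  obtain ⟨r, hr⟩ := (Submodule.mem_span_range_iff_exists_fun ℚ).1 (hle hz1)
  exact clear_denoms r _ _ hr

lemma coeff_prod_ne {n : ℕ} (F : Fin n → PowerSeries ℕ) (k : ℕ) (h : coeff k (∏ i, F i) ≠ 0) :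
    ∃ l : Fin n → ℕ, ∑ i, l i = k ∧ ∀ i, coeff (l i) (F i) ≠ 0 := by
  induction n generalizing k with
  | zero =>
    refine ⟨Fin.elim0, ?_, fun i => i.elim0⟩
    by_contra hne
    refine h ?_
    rw [Fin.prod_univ_zero, PowerSeries.coeff_one, if_neg]
    rintro rfl
    exact hne (by simp)
  | succ n ih =>
    rw [Fin.prod_univ_succ, PowerSeries.coeff_mul] at h
    obtain ⟨p, hp, hne⟩ := exists_ne_zero_of_sum_ne_zero h
    rw [Finset.HasAntidiagonal.mem_antidiagonal] at hp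
    obtain ⟨l, hl1, hl2⟩ := ih (fun i => F i.succ) p.2 (fun h0 => hne (by rw [h0, mul_zero]))
    refine ⟨Fin.cons p.1 l, ?_, ?_⟩
    · rw [Fin.sum_univ_succ]
      simp only [Fin.cons_zero, Fin.cons_succ]
      omega
    · intro i
      refine Fin.cases ?_ (fun j => ?_) i
      · rw [Fin.cons_zero]
        exact fun h0 => hne (by rw [h0, zero_mul])
      · rw [Fin.cons_succ]
        exact hl2 j

section
variable {s : ℕ}

/-- `m` is the sum of one element of each of the sets `A i` -/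
def IsSum (A : Fin (s + 1) → ℕ → Prop) (m : ℕ) : Prop :=
  ∃ k : Fin (s + 1) → ℕ, (∀ i, A i (k i)) ∧ ∑ i, k i = m

open Classical in
lemma count_sums (A : Fin (s + 1) → ℕ → Prop) (hA : ∀ i k, A i k → 1 ≤ k) (a : Fin (s + 1) → ℕ)
    (ha : ∀ i, A i (a i)) (T : ℕ → Prop)
    (hT : ∀ m, T m → ∃ l : Fin (s + 1) → ℕ, ∑ i, l i = m ∧ ∀ i, l i = 0 ∨ A i (l i)) (n : ℕ) :
    ((range (n + 1)).filter T).card ≤
      2 ^ (s + 1) * (((Icc 1 n).filter (IsSum A)).card + ∑ i, a i) := by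
  set c0 := ∑ i, a i with hc0
  have hsub : (range (n + 1)).filter T ⊆
      (univ : Finset (Finset (Fin (s + 1)))).biUnion fun I =>
        ((Icc 1 (n + c0)).filter (IsSum A)).image fun m => m - ∑ i ∈ I, a i := by
    intro k hk
    obtain ⟨hk1, hk2⟩ := mem_filter.1 hk
    obtain ⟨l, hl1, hl2⟩ := hT k hk2
    rw [mem_biUnion]
    refine ⟨univ.filter fun i => l i = 0, mem_univ _, mem_image.2 ?_⟩
    have h1 : ∑ i, (if l i = 0 then a i else l i) = k + ∑ i ∈ univ.filter (fun i => l i = 0), a i := by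
      rw [← hl1, sum_filter, ← sum_add_distrib]
      refine sum_congr rfl fun i _ => ?_
      split_ifs with h
      · rw [h, zero_add]
      · rw [add_zero]
    have h2 : ∀ i, A i (if l i = 0 then a i else l i) := by
      intro i
      split_ifs with h
      · exact ha i
      · exact (hl2 i).resolve_left h
    have h3 : ∑ i ∈ univ.filter (fun i => l i = 0), a i ≤ c0 :=
      sum_le_sum_of_subset (filter_subset _ _)
    have h4 : 1 ≤ k + ∑ i ∈ univ.filter (fun i => l i = 0), a i := by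
      rw [← h1]
      refine (hA 0 _ (h2 0)).trans ?_
      exact single_le_sum (f := fun i => if l i = 0 then a i else l i) (fun _ _ => Nat.zero_le _)
        (mem_univ 0)
    refine ⟨k + ∑ i ∈ univ.filter (fun i => l i = 0), a i, mem_filter.2 ⟨mem_Icc.2 ⟨h4, ?_⟩,
      _, h2, h1⟩, by omega⟩
    have := mem_range.1 hk1
    omega
  have h1 : ((Icc 1 (n + c0)).filter (IsSum A)).card ≤ ((Icc 1 n).filter (IsSum A)).card + c0 := by
    have h2 : (Icc 1 (n + c0)).filter (IsSum A) ⊆ (Icc 1 n).filter (IsSum A) ∪ Ioc n (n + c0) := by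
      intro m hm
      obtain ⟨h3, h4⟩ := mem_filter.1 hm
      rw [mem_Icc] at h3
      rw [mem_union]
      rcases Nat.lt_or_ge n m with h | h
      · exact Or.inr (mem_Ioc.2 ⟨h, h3.2⟩)
      · exact Or.inl (mem_filter.2 ⟨mem_Icc.2 ⟨h3.1, h⟩, h4⟩)
    have h3 := (card_le_card h2).trans (card_union_le _ _)
    rw [Nat.card_Ioc] at h3
    omega
  refine (card_le_card hsub).trans (card_biUnion_le.trans ?_)
  refine (sum_le_sum fun I _ => card_image_le).trans ?_
  rw [sum_const, card_univ, Fintype.card_finset, Fintype.card_fin, smul_eq_mul]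
  exact Nat.mul_le_mul_left _ h1

end

end Pool.Agent.Helper161SP
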