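import Pool.Agent.Helper161SP.Fin

/-!
# The version with logarithms and the case of one generator
-/

set_option autoImplicit false

open Finset Filter IntermediateField Polynomial

namespace Pool.Agent.Helper161SP

open Pool.Agent.H820R3.DG

lemma pow_span {α : ℝ} (halg : IsAlgebraic ℚ α) {s : ℕ}
    (hs : (minpoly ℚ α).natDegree = s + 1) :
    (Submodule.span ℚ (Set.range fun I : Finset (Fin s) => ∏ _i ∈ I, α) : Set ℝ) =
      (ℚ⟮α⟯ : Set ℝ) := by
  apply Set.Subset.antisymm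
  · intro v hv
    have h1 : Submodule.span ℚ (Set.range fun I : Finset (Fin s) => ∏ _i ∈ I, α) ≤
        Subalgebra.toSubmodule ℚ⟮α⟯.toSubalgebra := by
      rw [Submodule.span_le]
      rintro _ ⟨I, rfl⟩
      exact ℚ⟮α⟯.prod_mem fun _ _ => mem_adjoin_simple_self ℚ α
    exact h1 hv
  · intro v hv
    have h1 : v ∈ ℚ⟮α⟯.toSubalgebra := hv
    rw [adjoin_simple_toSubalgebra_of_isAlgebraic halg,
      Algebra.adjoin_singleton_eq_range_aeval] at h1
    obtain ⟨p, rfl⟩ := h1
    have hmon := minpoly.monic halg.isIntegral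
    change aeval α p ∈ Submodule.span ℚ (Set.range fun I : Finset (Fin s) => ∏ _i ∈ I, α)
    rw [← aeval_modByMonic_eq_self_of_root (minpoly.aeval ℚ α)]
    have hdeg : (p %ₘ minpoly ℚ α).natDegree < s + 1 :=
      hs ▸ natDegree_modByMonic_lt p hmon (minpoly.ne_one ℚ α)
    rw [aeval_eq_sum_range' hdeg]
    refine Submodule.sum_mem _ fun i hi => Submodule.smul_mem _ _ (Submodule.subset_span ?_)
    have hi' := mem_range.1 hi
    obtain ⟨I, -, hI⟩ := Finset.exists_subset_card_eq (s := (univ : Finset (Fin s))) (n := i) (by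
      rw [card_univ, Fintype.card_fin]; omega)
    exact ⟨I, by simp [hI]⟩

section
variable {b s : ℕ} {x : Fin (s + 1) → ℝ} {e : Fin (s + 1) → ℤ}

open Classical in
/-- both lower bounds -/
theorem sums_both (hb : 2 ≤ b) (K : IntermediateField ℚ ℝ) (hK : FiniteDimensional ℚ K)
    (hx : ∀ i, x i ∈ K) (hirr : ∀ i, Irrational (x i))
    (hspan : (Submodule.span ℚ (Set.range fun I : Finset (Fin s) => ∏ i ∈ I, x i.succ) : Set ℝ) =
      (K : Set ℝ)) (he : ∀ i, e i = 0 ∨ e i = b - 1) :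
    ∃ c : ℝ, 0 < c ∧ ∀ᶠ n : ℕ in atTop,
      c * n ≤ (((Icc 1 n).filter (IsSum (Ne b x e))).card : ℝ) *
        Real.log (2 + (∏ i, (((Icc 1 n).filter (Ne b x e i)).card : ℝ)) / n) ∧
      c * n ≤ (((Icc 1 n).filter (IsSum (Ne b x e))).card : ℝ) * Real.log n := by
  obtain ⟨c, hc, h⟩ := sums_main hb K hx hirr hspan he
  refine ⟨c / (s + 1), by positivity, ?_⟩
  filter_upwards [h, eventually_ge_atTop 3] with n h1 h2
  have hn3 : (3 : ℝ) ≤ n := by exact_mod_cast h2
  have hn0 : (0 : ℝ) < n := by linarith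
  have hcc : c / (s + 1) * n ≤ c * n := by
    apply mul_le_mul_of_nonneg_right _ hn0.le
    rw [div_le_iff₀ (by positivity)]
    have : (0 : ℝ) ≤ s := Nat.cast_nonneg _
    nlinarith
  refine ⟨hcc.trans h1, ?_⟩
  set S : ℝ := (((Icc 1 n).filter (IsSum (Ne b x e))).card : ℝ) with hS
  have hS0 : 0 ≤ S := Nat.cast_nonneg _
  have hN : (∏ i : Fin (s + 1), (((Icc 1 n).filter (Ne b x e i)).card : ℝ)) ≤ (n : ℝ) ^ (s + 1) := by
    calc (∏ i : Fin (s + 1), (((Icc 1 n).filter (Ne b x e i)).card : ℝ)) ≤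
        ∏ _i : Fin (s + 1), (n : ℝ) := by
          refine prod_le_prod (fun _ _ => Nat.cast_nonneg _) fun i _ => ?_
          have h3 := card_filter_le (Icc 1 n) (Ne b x e i)
          rw [Nat.card_Icc, Nat.add_sub_cancel] at h3
          exact_mod_cast h3
      _ = (n : ℝ) ^ (s + 1) := by rw [prod_const, card_univ, Fintype.card_fin]
  have hlog : Real.log (2 + (∏ i, (((Icc 1 n).filter (Ne b x e i)).card : ℝ)) / n) ≤
      (s + 1) * Real.log n := by
    have h3 : (s + 1) * Real.log n = Real.log ((n : ℝ) ^ (s + 1)) := by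
      rw [Real.log_pow]; push_cast; rfl
    rw [h3]
    have h4 : (∏ i, (((Icc 1 n).filter (Ne b x e i)).card : ℝ)) / n ≤ (n : ℝ) ^ s := by
      rw [div_le_iff₀ hn0, ← pow_succ]
      exact hN
    have h5 : (1 : ℝ) ≤ (n : ℝ) ^ s := one_le_pow₀ (by linarith)
    have h6 : 0 ≤ (∏ i, (((Icc 1 n).filter (Ne b x e i)).card : ℝ)) / n :=
      div_nonneg (prod_nonneg fun _ _ => Nat.cast_nonneg _) hn0.le
    refine Real.log_le_log (by linarith) ?_
    rw [pow_succ]
    nlinarith
  rw [div_mul_eq_mul_div, div_le_iff₀ (by positivity)]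
  calc c * n ≤ S * Real.log (2 + (∏ i, (((Icc 1 n).filter (Ne b x e i)).card : ℝ)) / n) := h1
    _ ≤ S * ((s + 1) * Real.log n) := mul_le_mul_of_nonneg_left hlog hS0
    _ = S * Real.log n * (s + 1) := by ring

end

end Pool.Agent.Helper161SP
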